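import Pool.Agent.Work.MP_11a08a_al.Af.Defs
import Pool.Agent.Work.MP_11a08a_al.Fr.BGK

/-!
The exponential sum bound from its module form.
-/

set_option autoImplicit false

open Finset Filter

namespace Pool.Agent.Work.MP_11a08a_al.Af

open Pool.Agent.Work.MP_11a08a_al.Fr (Faith phi spec Dec Spread half sol op Ind ex Claim
  bgk_ideal bgk_lift bgk_lift_smul)

theorem bgk (h : StmtBGK1) : StmtBGK := by
  intro η hη
  obtain ⟨δ, hδ, N₀, H⟩ := h η hη
  refine ⟨δ, hδ, N₀, fun R _ _ _ U hN hU hS s ⟨x, hx⟩ => ?_⟩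
  classical
  have : Finite (R ⧸ bgk_ideal s) := Finite.of_surjective _ Ideal.Quotient.mk_surjective
  let _ : Fintype (R ⧸ bgk_ideal s) := Fintype.ofFinite _
  have hcard : Fintype.card (R ⧸ bgk_ideal s) ≤ Fintype.card R :=
    Fintype.card_le_of_surjective _ Ideal.Quotient.mk_surjective
  have hF : Faith R (bgk_lift s) := by
    intro t ht
    obtain ⟨a, rfl⟩ := Ideal.Quotient.mk_surjective t
    by_contra hcon
    refine ht (Ideal.Quotient.eq_zero_iff_mem.2 fun y => ?_)
    by_contra hy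
    exact hcon ⟨y, by rwa [bgk_lift_smul]⟩
  have h1 : Ideal.Quotient.mk (bgk_ideal s) 1 ≠ 0 := fun e =>
    hx (by simpa using Ideal.Quotient.eq_zero_iff_mem.1 e x)
  have h2 := H R (R ⧸ bgk_ideal s) (bgk_lift s) U hN hcard hU hF hS _ h1
  simpa only [phi, bgk_lift_smul, mul_one] using h2

end Pool.Agent.Work.MP_11a08a_al.Af
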