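import Pool.Agent.Work.MP_11a08a_al.Af.Defs

set_option autoImplicit false

open Finset
open scoped Pointwise

namespace Pool.Agent.Work.MP_11a08a_al.Af

open Pool.Agent.Work.MP_11a08a_al.Fr (Faith phi spec Spread)

theorem afbgk0_inv {θ lam : ℝ} (hθ : 0 < θ) (h : 1 ≤ θ * lam) : 1 / θ ≤ lam := by
  rw [div_le_iff₀ hθ]; linarith

theorem afbgk0_diff {θ lam a a' : ℝ} (hθ : 0 < θ) (h : 1 ≤ θ * lam) (hl : 2 ^ 13 ≤ lam)
    (ha : 0 ≤ a) (ha' : 0 ≤ a') (haa : a ≤ 2 * lam * a') :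
    2 ^ 12 * lam ^ 4 / θ ^ 5 * a ≤ lam ^ 11 * a' := by
  have l0 : 0 ≤ lam := by linarith [show (0 : ℝ) ≤ 2 ^ 13 by positivity]
  have h1 : (1 / θ) ^ 5 ≤ lam ^ 5 := pow_le_pow_left₀ (by positivity) (afbgk0_inv hθ h) 5
  calc 2 ^ 12 * lam ^ 4 / θ ^ 5 * a = 2 ^ 12 * lam ^ 4 * (1 / θ) ^ 5 * a := by ring
    _ ≤ 2 ^ 12 * lam ^ 4 * lam ^ 5 * (2 * lam * a') := by gcongr
    _ = 2 ^ 13 * (lam ^ 10 * a') := by ring
    _ ≤ lam * (lam ^ 10 * a') := by gcongr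
    _ = lam ^ 11 * a' := by ring

theorem afbgk0_dil {θ lam : ℝ} (hθ : 0 < θ) (h : 1 ≤ θ * lam) (hl : 2 ^ 13 ≤ lam) :
    2 * (lam ^ 11) ^ 4 / (θ / 2) ≤ lam ^ 46 := by
  have l0 : 0 ≤ lam := by linarith [show (0 : ℝ) ≤ 2 ^ 13 by positivity]
  have l4 : 4 ≤ lam := by linarith [show (4 : ℝ) ≤ 2 ^ 13 by norm_num]
  have h1 := afbgk0_inv hθ h
  calc 2 * (lam ^ 11) ^ 4 / (θ / 2) = 4 * lam ^ 44 * (1 / θ) := by ring
    _ ≤ lam * lam ^ 44 * lam := by gcongr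
    _ = lam ^ 46 := by ring

theorem bgk0 (h0 : StmtSel) (h1 : Cp.StmtBSG) (h2 : StmtSP) (h3 : StmtSpec) (h4 : StmtInv) :
    StmtBGK0 := by
  intro J
  obtain ⟨c, hc⟩ := h2 J
  refine ⟨46 * c + 2, ?_⟩
  intro R M _ _ _ _ _ _ _ θ U P lam α μ hU hF hl hα hθ ⟨t, ht, ht0⟩ hS hμ hJ hμU hsp
  obtain ⟨p1, p2, p3⟩ := h3 R M θ U P hU hF
  have sel := (h0 R U P hU).2
  have l8 : 8 ≤ lam := by linarith [show (8 : ℝ) ≤ 2 ^ 13 by norm_num]
  have l0 : 0 < lam := by linarith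
  have θ0 : 0 < α ^ 2 / 2 := by positivity
  have hθl : 1 ≤ α ^ 2 / 2 * lam := by rwa [div_le_iff₀ l0] at hθ
  have hinv : ∀ u ∈ U, ∀ a ∈ spec θ U α, u • a ∈ spec θ U α := by
    intro u hu a ha
    simp only [spec, mem_filter, mem_univ, true_and] at ha ⊢
    rwa [p2 a u hu]
  have n0 : (0 : ℝ) < #U := by exact_mod_cast card_pos.2 ⟨1, hU.grp.one⟩
  have q0 : 0 < lam ^ 2 := by positivity
  have P0 : 0 < P := lt_of_lt_of_le (by positivity) hμU
  have hAU : P ≤ #(spec θ U α) := by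
    obtain ⟨C, hCU, hC1, hC2⟩ := sel U (Subset.refl U)
    have e1 : P ≤ #C := le_of_mul_le_mul_left (by linarith) n0
    refine e1.trans ?_
    exact_mod_cast card_le_card_of_injOn (fun u => u • t) (fun u hu => hinv u (hCU hu) t ht)
      fun u hu v hv e => by_contra fun huv => ht0 ((hC1 u hu v hv huv).smul_eq_zero.1
        (by rw [sub_smul]; exact sub_eq_zero.2 e))
  obtain ⟨A', hsub, hA1, hA2⟩ := h1 M (spec θ U α) (spec θ U (α ^ 2 / 2)) (α ^ 2 / 2) lam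
    ⟨t, ht⟩ θ0 (p3 α hα) hS
  have a0 : (0 : ℝ) < #(spec θ U α) := lt_of_lt_of_le P0 hAU
  have a1 : (0 : ℝ) < #A' := lt_of_lt_of_le (by positivity) hA1
  have hne : A'.Nonempty := card_pos.1 (by exact_mod_cast a1)
  have haa : (#(spec θ U α) : ℝ) ≤ 2 * lam * #A' := by
    have e1 := mul_le_mul_of_nonneg_left hA1 l0.le
    have e2 := mul_le_mul_of_nonneg_right hθl a0.le
    linarith
  have hD := hA2.trans (afbgk0_diff θ0 hθl hl a0.le a1.le haa)
  have l1 : 1 ≤ lam := by linarith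
  obtain ⟨B, hBU, hB1, hB2⟩ := h4 R M U (spec θ U α) A' (α ^ 2 / 2 / 2) (lam ^ 11) hU.grp hinv
    hsub hne (by positivity) hA1 (one_le_pow₀ l1) hD
  have xB : (#U : ℝ) < #B * lam ^ 2 := by
    have e1 := mul_le_mul_of_nonneg_left hB1 l0.le
    have e2 := mul_le_mul_of_nonneg_right hθl n0.le
    have e3 : (#U : ℝ) ≤ 4 * (lam * #B) := by linarith
    have e4 : (0 : ℝ) ≤ lam * #B := by positivity
    have e5 := mul_le_mul_of_nonneg_right l8 e4
    calc (#U : ℝ) < lam * (lam * #B) := by linarith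
      _ = #B * lam ^ 2 := by ring
  obtain ⟨B₂, hB₂, hB3, hB4⟩ := sel B hBU
  have xB₂ : P < #B₂ * lam ^ 2 := by
    have e1 := mul_lt_mul_of_pos_left xB P0
    have e2 := mul_le_mul_of_nonneg_right hB4 q0.le
    exact lt_of_mul_lt_mul_left (a := (#U : ℝ)) (by linarith) n0.le
  have hW : (1 : ℝ) ≤ lam ^ 46 := one_le_pow₀ l1
  have r0 : 0 < α ^ 2 * P := by positivity
  have key := hc R M A' B B₂ (lam ^ 46) μ (1 / (α ^ 2 * P)) hne hW hμ (by positivity)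
    (hD.trans (mul_le_mul_of_nonneg_right (pow_le_pow_right₀ l1 (by norm_num)) a1.le))
    (fun u hu => (hB2 u hu).trans (mul_le_mul_of_nonneg_right (afbgk0_dil θ0 hθl hl) a1.le))
    hB₂ hB3
    (fun Q hQ => by_contra fun hq => by
      classical
      have e1 := hsp Q hq
      rw [one_div_mul_eq_div, le_div_iff₀ q0] at e1
      refine absurd (le_trans (mul_le_mul_of_nonneg_right (Nat.cast_le.2 (card_le_card
        fun b hb => ?_)) q0.le) e1) (not_le.2 xB)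
      exact mem_filter.2 ⟨hBU hb, hQ b hb⟩)
    (lt_of_mul_lt_mul_right (hμU.trans_lt xB₂) q0.le) hJ
    (fun a m hm => by
      rw [one_div_mul_eq_div, le_div_iff₀ r0]
      refine le_trans (mul_le_mul_of_nonneg_right (Nat.cast_le.2 (card_le_card
        fun x hx => ?_)) r0.le) (p1 α hα a m hm)
      exact mem_filter.2 ⟨mem_univ _, hsub (mem_filter.1 hx).2⟩)
  have w0 : (0 : ℝ) < (lam ^ 46) ^ c := by positivity
  rw [show lam ^ (46 * c + 2) = lam * (lam * (lam ^ 46) ^ c) by rw [← pow_mul]; ring]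
  generalize (lam ^ 46) ^ c = w at key w0 ⊢
  have e0 : P * (1 / (α ^ 2 * P)) ≤ lam / 2 := by
    rw [mul_one_div, div_le_iff₀ r0]
    have := mul_le_mul_of_nonneg_right hθl P0.le
    linarith
  have e1 := mul_le_mul_of_nonneg_right e0 a1.le
  have e2 : P * (1 + 1 / (α ^ 2 * P) * #A') ≤ 5 / 2 * lam * #A' := by linarith
  have m0 : 0 ≤ 2 * μ * w := by positivity
  have e3 := mul_le_mul_of_nonneg_left key P0.le
  have e4 := mul_le_mul_of_nonneg_left e2 m0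
  have e5 : P ≤ 5 * (μ * (lam * w)) := le_of_mul_le_mul_right (by linarith) a1
  have e6 : 0 ≤ μ * (lam * w) := by positivity
  have e7 := mul_le_mul_of_nonneg_right l8 e6
  linarith

end Pool.Agent.Work.MP_11a08a_al.Af
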