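import Pool.Agent.Work.MP_11a08a_al.Af.Defs
import Pool.Agent.Work.MP_11a08a_al.Fr.BGK1

/-!
The exponential sum bound from its one scale form, by pigeonholing over the scales.
-/

set_option autoImplicit false

open Finset Filter
open scoped Pointwise

namespace Pool.Agent.Work.MP_11a08a_al.Af

open Pool.Agent.Work.MP_11a08a_al.Fr (Faith phi spec Dec Spread half sol op Ind ex Claim
  bgk1_a bgk1_a_pos bgk1_a_le bgk1_a_ge bgk1_mem bgk1_pigeon)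

theorem bgk1 (h : StmtBGK0) : StmtBGK1 := by
  intro η hη
  obtain ⟨n, hn⟩ := exists_nat_ge (1 / η)
  have hn1 : 1 ≤ η * n := by
    rw [div_le_iff₀ hη] at hn; linarith
  have hn0 : n ≠ 0 := by
    rintro rfl
    norm_num at hn1
  obtain ⟨c, hc⟩ := h (2 * n)
  obtain ⟨J, hJ⟩ : ∃ J, J = (c + 3) * (2 * n) := ⟨_, rfl⟩
  have hJ1 : 1 ≤ J := by
    rw [hJ]; exact Nat.one_le_iff_ne_zero.mpr (Nat.mul_ne_zero (by omega) (by omega))
  obtain ⟨N, hN⟩ : ∃ N, N = 2 ^ (J + 1) * J := ⟨_, rfl⟩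
  have hN0 : N ≠ 0 := by
    rw [hN]; exact Nat.mul_ne_zero (by positivity) (by omega)
  have hNpos : (0 : ℝ) < N := by exact_mod_cast Nat.pos_of_ne_zero hN0
  refine ⟨(N : ℝ)⁻¹, by positivity, (2 ^ 13) ^ N, ?_⟩
  intro R M _ _ _ _ _ _ _ θ U hr hM hU hF hsp t ht
  obtain ⟨r, hrr⟩ : ∃ r, r = Fintype.card R := ⟨_, rfl⟩
  rw [← hrr] at hr hM hU hsp ⊢
  have hr5 : 5 ≤ r := le_trans (le_trans (by norm_num) (Nat.le_self_pow hN0 (2 ^ 13))) hr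
  have hr1 : (1 : ℝ) ≤ r := by exact_mod_cast (by omega : 1 ≤ r)
  have hr0 : (0 : ℝ) ≤ r := by linarith
  obtain ⟨μ, hμ⟩ : ∃ μ : ℝ, μ = (r : ℝ) ^ (N : ℝ)⁻¹ := ⟨_, rfl⟩
  have hμ0 : 0 ≤ μ := by rw [hμ]; exact Real.rpow_nonneg hr0 _
  have hμN : μ ^ N = r := by rw [hμ]; exact Real.rpow_inv_natCast_pow hr0 hN0
  have hμ13 : (2 : ℝ) ^ 13 ≤ μ := by
    refine le_of_pow_le_pow_left₀ hN0 hμ0 ?_
    rw [hμN]; exact_mod_cast hr
  have hμ2 : 2 ≤ μ := le_trans (by norm_num) hμ13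
  have hμ1 : 1 ≤ μ := by linarith
  rw [Real.rpow_neg hr0, ← hμ]
  by_contra hcon
  have hbig : μ⁻¹ * #U ≤ ‖phi θ U t‖ := (not_le.mp hcon).le
  obtain ⟨lam, hlam⟩ : ∃ lam : ℝ, lam = μ ^ 2 ^ (J + 1) := ⟨_, rfl⟩
  have hlamJ : lam ^ J = r := by rw [hlam, ← pow_mul, ← hN, hμN]
  have hlam13 : (2 : ℝ) ^ 13 ≤ lam := by
    rw [hlam]; exact le_trans hμ13 (le_self_pow₀ hμ1 (by positivity))
  have hlam2 : 2 ≤ lam := le_trans (by norm_num) hlam13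
  have hlam1 : 1 < lam := by linarith
  have hlam0 : 0 < lam := by linarith
  have hmem : ∀ j, t ∈ spec θ U (bgk1_a μ j) := fun j => bgk1_mem θ U (bgk1_a_le hμ2 j) hbig
  obtain ⟨j, hj, hgrow⟩ := bgk1_pigeon (fun j => (#(spec θ U (bgk1_a μ j)) : ℝ)) lam J hJ1 hlam0
    (by exact_mod_cast card_pos.mpr ⟨t, hmem 0⟩)
    (by rw [hlamJ]; exact_mod_cast (card_le_univ _).trans hM)
  have hUn : (r : ℝ) ≤ ((r : ℝ) ^ η) ^ n := by
    calc (r : ℝ) = (r : ℝ) ^ (1 : ℝ) := (Real.rpow_one _).symm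
      _ ≤ (r : ℝ) ^ (η * n) := Real.rpow_le_rpow_of_exponent_le hr1 hn1
      _ = ((r : ℝ) ^ η) ^ n := Real.rpow_mul_natCast hr0 η n
  have hE : lam ^ (2 * c + 6) ≤ (r : ℝ) ^ η := by
    refine le_of_pow_le_pow_left₀ hn0 (Real.rpow_nonneg hr0 _) ?_
    have e : (2 * c + 6) * n = J := by rw [hJ]; ring
    rw [← pow_mul, e, hlamJ]; exact hUn
  have hα : 1 / lam ≤ bgk1_a μ j ^ 2 / 2 := by
    have h1 := bgk1_a_ge hμ2 (j + 1)
    have h2 : μ ^ 2 ^ (j + 1 + 1) ≤ lam := by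
      rw [hlam]
      exact pow_le_pow_right₀ hμ1 (Nat.pow_le_pow_right (by norm_num) (by omega))
    have h3 := bgk1_a_pos hμ2 (j + 1)
    have h4 := mul_le_mul_of_nonneg_right h2 h3.le
    rw [div_le_iff₀ hlam0]
    simp only [bgk1_a] at h1 h4
    linarith
  have hT : (Fintype.card R : ℝ) ≤ (lam ^ (c + 3)) ^ (2 * n) := by
    rw [← pow_mul, ← hJ, hlamJ, hrr]
  have hS : 2 * lam ^ (c + 3) * lam ^ 2 ≤ (r : ℝ) ^ η := by
    calc 2 * lam ^ (c + 3) * lam ^ 2 ≤ lam * lam ^ (c + 3) * lam ^ 2 := by gcongr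
      _ = lam ^ (c + 6) := by ring
      _ ≤ lam ^ (2 * c + 6) := pow_le_pow_right₀ hlam1.le (by omega)
      _ ≤ _ := hE
  have hsp' : Spread U (1 / lam ^ 2) := by
    intro Q hQ
    refine (hsp Q hQ).trans (mul_le_mul_of_nonneg_right ?_ (Nat.cast_nonneg _))
    rw [Real.rpow_neg hr0, one_div]
    exact inv_anti₀ (by positivity) ((pow_le_pow_right₀ hlam1.le (by omega)).trans hE)
  have hfin := hc R M θ U ((r : ℝ) ^ η) lam (bgk1_a μ j) (lam ^ (c + 3)) hU hF hlam13 (bgk1_a_pos hμ2 j) hα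
    ⟨t, hmem j, ht⟩ hgrow (one_le_pow₀ hlam1.le) hT hS hsp'
  rw [← pow_add] at hfin
  have hlt : lam ^ (c + 3 + c) < lam ^ (2 * c + 6) := pow_lt_pow_right₀ hlam1 (by omega)
  linarith

end Pool.Agent.Work.MP_11a08a_al.Af
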