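import Pool.Agent.Work.MP_11a08a_al.Af.Defs
import Pool.Agent.Work.MP_11a08a_al.Fr.Base

/-!
The base of the rank recursion.
-/

set_option autoImplicit false

open Finset Filter

namespace Pool.Agent.Work.MP_11a08a_al.Af

open Pool.Agent.Work.MP_11a08a_al.Cp (Most trk)
open Pool.Agent.Work.MP_11a08a_al.Fr (Faith phi spec Dec Spread half sol op Ind ex Claim
  base_shift base_lin ex_mono)

section

variable {𝒰 : Ultrafilter ℕ} {R M K : ℕ → Type} [∀ n, CommRing (R n)] [∀ n, Fintype (R n)]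
  [∀ n, DecidableEq (R n)] [∀ n, AddCommGroup (M n)] [∀ n, Module (R n) (M n)]
  [∀ n, DecidableEq (M n)] [∀ n, Field (K n)] {χ : ∀ n, AddChar (M n) (K n)}
  {U : ∀ n, Finset (R n)} {L : Type} [Field L] {π : (∀ n, K n) →+* L} {k : ℕ}

theorem afbase_ind (H : Dat 𝒰 χ U π k) (hS : StmtShift) {g : ℕ} {b : Fin g → ∀ n, M n}
    (hb : Ind 𝒰 b) (s : ℕ) (l : Fin s × Fin g → ℤ) (ε : ℝ) (hε : 0 < ε) :
    Most 𝒰 (fun n => Fintype.piFinset fun _ : Fin s => U n) ε fun w => l ≠ 0 →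
      ∀ᶠ n in (𝒰 : Filter ℕ), ∑ p, l p • w n p.1 • b p.2 n ≠ 0 := by
  by_cases hl : l = 0
  · exact ⟨fun _ => ∅, Eventually.of_forall fun n => by simp; positivity,
      fun _ _ _ h => absurd hl h⟩
  obtain ⟨p, hp⟩ := Function.ne_iff.1 hl
  obtain ⟨N, hN⟩ := exists_nat_one_div_lt hε
  let c : ∀ n, Fin s → M n := fun n i => ∑ j, l (i, j) • b j n
  refine ⟨fun n => (Fintype.piFinset fun _ : Fin s => U n).filter fun w => ∑ i, w i • c n i = 0,
    ?_, fun w hw hB _ => ?_⟩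
  · filter_upwards [H.big (N + 1),
      hb (fun j => l (p.1, j)) (Function.ne_iff.2 ⟨p.2, hp⟩)] with n h1 h2
    have h4 := (hS (R n) (M n) (U n) _ s h1).1 (c n) (Function.ne_iff.2 ⟨p.1, h2⟩)
    rw [Fintype.card_piFinset_const, Nat.cast_pow]
    have h5 : (0 : ℝ) < N + 1 := by positivity
    rw [← le_div_iff₀ h5, div_eq_inv_mul, ← one_div] at h4
    exact h4.trans (mul_le_mul_of_nonneg_right hN.le (by positivity))
  · filter_upwards [hB] with n h1 h2
    refine h1 (mem_filter.2 ⟨hw n, ?_⟩)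
    rw [← h2, Fintype.sum_prod_type]
    refine sum_congr rfl fun i _ => ?_
    rw [smul_sum]
    exact sum_congr rfl fun j _ => smul_comm _ _ _

end

theorem base (hB : Fr.StmtBasis) (hP : Fr.StmtPat) (hS : StmtShift) (hM : Cp.StmtMost)
    (hA : Cp.StmtAlg) : StmtBase := by
  classical
  intro 𝒰 R M K _ _ _ _ _ _ _ χ U L _ π k H q a β z hz hf
  obtain ⟨g, b, d, m, t, hg, hm, hb, hd⟩ := hB 𝒰 M q a
  obtain ⟨s₀, hs⟩ := base_shift d
  let γ : Fin q → L := fun l => π (β l) * ex χ π fun n => z n • t l n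
  let K₀ : Subfield L := Subfield.closure (Set.range γ)
  have hγ : ∀ l, γ l ∈ K₀ := fun l => Subfield.subset_closure ⟨l, rfl⟩
  have hK : Countable K₀ := by
    rw [← Cardinal.mk_le_aleph0_iff]
    refine (Subfield.cardinalMk_closure_le_max _).trans (max_le ?_ le_rfl)
    exact Cardinal.mk_le_aleph0_iff.2 (Set.countable_range γ).to_subtype
  have hm1 : (1 : ℝ) ≤ (m : ℝ) ^ q := one_le_pow₀ (by exact_mod_cast hm)
  set σ : ℝ := 1 / (2 * (m : ℝ) ^ q) with hσ
  have σ0 : 0 < σ := by positivity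
  have σ1 : σ < 1 := by
    rw [hσ, div_lt_one (by positivity)]
    linarith
  let S : ∀ n, Finset (R n) := fun n =>
    (U n).filter fun u => ∀ l, χ n (u • t l n) = χ n (z n • t l n)
  have hSσ : ∀ᶠ n in (𝒰 : Filter ℕ), σ * #(U n) ≤ #(S n) := by
    filter_upwards [H.dec σ σ0, eventually_all.2 hd] with n h1 h2
    have h3 := hP (R n) (M n) (K n) (χ n) (U n) σ q m (fun l => t l n) (z n) hm σ0.le h1
      fun l => (h2 l).2
    have h4 : 1 / (m : ℝ) ^ q - σ = σ := by
      rw [hσ]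
      field_simp
      norm_num
    rw [h4] at h3
    convert h3
  let Q : MvPolynomial (Fin g) K₀ :=
    ∑ l, MvPolynomial.C ⟨γ l, hγ l⟩ * ∏ j, MvPolynomial.X j ^ (d l j + s₀).toNat
  have key : ∀ u : ∀ n, R n,
      (∀ᶠ n in (𝒰 : Filter ℕ), ∀ l, χ n (u n • t l n) = χ n (z n • t l n)) →
      MvPolynomial.aeval (fun j => ex χ π fun n => u n • b j n) Q =
      π (fun n => ∑ l, β l n * χ n (u n • a l n)) *
        ex χ π fun n => ∑ j, s₀ • u n • b j n := by
    intro u hu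
    have e : (fun n => ∑ l, β l n * χ n (u n • a l n)) =
        ∑ l, β l * fun n => χ n (u n • a l n) := by
      funext n
      simp [Finset.sum_apply]
    rw [e, map_sum π, sum_mul, map_sum]
    refine sum_congr rfl fun l _ => ?_
    rw [map_mul, map_mul, MvPolynomial.aeval_C, map_prod, mul_assoc]
    simp only [map_pow, MvPolynomial.aeval_X]
    rw [ex_mono]
    change π (β l) * ex χ π (fun n => z n • t l n) * _ = _
    rw [mul_assoc]
    congr 1
    unfold ex
    rw [← map_mul, ← map_mul]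
    refine H.congr ?_
    filter_upwards [hd l, hu] with n hn h2
    rw [Pi.mul_apply, Pi.mul_apply, ← h2 l, ← AddChar.map_add_eq_mul, ← AddChar.map_add_eq_mul,
      hn.1, base_lin _ _ _ (hs l)]
  have hQ : Q ≠ 0 := by
    intro h
    have h1 := key z (Eventually.of_forall fun _ _ => rfl)
    rw [h, map_zero] at h1
    obtain ⟨n, hn⟩ := ((H.ker _).1 ((mul_eq_zero.1 h1.symm).resolve_right (H.ex_ne _))).exists
    exact hz n hn
  refine ⟨K₀, hK, σ, σ0, σ1, fun s => ?_⟩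
  obtain ⟨-, s2, -, s4, s5, -⟩ := hM 𝒰 _ (fun n => Fintype.piFinset fun _ : Fin s => U n) H.le
  obtain ⟨u1, u2, u3, -, -, u6⟩ := hM 𝒰 _ U H.le
  have m1 := s4 _ _ (fun l ε hε => afbase_ind H hS hb s l ε hε) (1 / 4) (by norm_num)
  have m2 : Most 𝒰 (fun n => Fintype.piFinset fun _ : Fin s => U n) (1 / 2) fun w =>
      ∀ᶠ n in (𝒰 : Filter ℕ), (#((U n).filter fun u => ∀ i, w n i * u ∉ S n) : ℝ) ≤
        2 * (1 - σ) ^ s * #(U n) := by
    refine ⟨fun n => (Fintype.piFinset fun _ : Fin s => U n).filter fun w =>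
      2 * (1 - σ) ^ s * #(U n) < (#((U n).filter fun u => ∀ i, w i * u ∉ S n) : ℝ), ?_,
      fun w hw hB => ?_⟩
    · filter_upwards [hSσ, H.big 0] with n h1 h0
      have h2 := (hS (R n) (M n) (U n) _ s h0).2 (S n) σ (filter_subset _ _) h1
      rw [Fintype.card_piFinset_const]
      have h3 := (Nat.cast_le (α := ℝ)).2 h2
      rw [Nat.cast_mul, Nat.cast_ofNat] at h3
      linarith
    · filter_upwards [hB] with n h1
      exact not_lt.1 fun h2 => h1 (mem_filter.2 ⟨hw n, h2⟩)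
  obtain ⟨w, hw, w1, w2⟩ := s5 _ _ (fun n => Fintype.piFinset_nonempty.2 fun _ =>
    ⟨1, (H.grp n).one⟩) (by norm_num) (s2 _ _ _ _ m1 m2)
  have hwU : ∀ n i, w n i ∈ U n := fun n i => Fintype.mem_piFinset.1 (hw n) i
  refine ⟨Fin s × Fin g, inferInstance, fun p n => w n p.1 • b p.2 n, w1, ?_, ?_⟩
  · rw [Fintype.card_prod, Fintype.card_fin, Fintype.card_fin, mul_comm]
    exact Nat.mul_le_mul_right _ hg
  have p0 : 0 < (1 - σ) ^ s := pow_pos (by linarith) s
  have m0 : Most 𝒰 U ((1 - σ) ^ s / (s + 1)) fun u =>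
      ∀ᶠ n in (𝒰 : Filter ℕ), ∑ l, β l n * χ n (u n • a l n) = 0 := by
    refine ⟨fun n => (U n).filter fun u => ∑ l, β l n * χ n (u • a l n) ≠ 0,
      hf _ (by positivity), fun u hu hB => ?_⟩
    filter_upwards [hB] with n h1
    exact by_contra fun h2 => h1 (mem_filter.2 ⟨hu n, h2⟩)
  have m4 := u3 (Fin s) _ _ fun i => u6 _ _ (fun n x => w n i * x)
    (fun n => ((H.grp n).unit (hwU n i)).mul_right_injective)
    (fun n x hx => (H.grp n).mul _ (hwU n i) _ hx) m0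
  have m3 : Most 𝒰 U (2 * (1 - σ) ^ s) fun u =>
      ∀ᶠ n in (𝒰 : Filter ℕ), ∃ i, w n i * u n ∈ S n := by
    refine ⟨fun n => (U n).filter fun u => ∀ i, w n i * u ∉ S n, w2, fun u hu hB => ?_⟩
    filter_upwards [hB] with n h1
    exact by_contra fun h2 => h1 (mem_filter.2 ⟨hu n, not_exists.1 h2⟩)
  refine u1 _ _ _ _ ?_ (fun u _ hu => ?_) (u2 _ _ _ _ m3 m4)
  · rw [Fintype.card_fin]
    have h1 : (s : ℝ) * ((1 - σ) ^ s / (s + 1)) ≤ (1 - σ) ^ s := by
      rw [← mul_div_assoc, div_le_iff₀ (by positivity)]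
      nlinarith
    linarith
  · obtain ⟨i, hi⟩ := Ultrafilter.eventually_exists_iff.1 hu.1
    refine (hA K₀ L).2.1 (Fin s × Fin g) _ fun h1 => hQ ?_
    have h2 := h1.comp (fun j => (i, j)) fun _ _ h => (Prod.mk.inj h).2
    have h3 : ((fun x : Fin s × Fin g => ex χ π fun n => u n • w n x.1 • b x.2 n) ∘
        fun j => (i, j)) = fun j => ex χ π fun n => (w n i * u n) • b j n := by
      funext j
      simp only [Function.comp_apply, smul_smul, mul_comm]
    rw [h3] at h2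
    refine algebraicIndependent_iff.1 h2 Q ?_
    rw [key _ (hi.mono fun n h => (mem_filter.1 h).2), (H.ker _).2 (hu.2 i), zero_mul]

end Pool.Agent.Work.MP_11a08a_al.Af
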