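import Pool.Agent.Work.MP_11a08a_al.Af.Defs

/-!
A common eigenvector of commuting operators in an invariant subspace.
-/

set_option autoImplicit false

namespace Pool.Agent.Work.MP_11a08a_al.Af

theorem ce : StmtCE := by
  intro L V _ _ _ _ _ ι T W₁ hW₁ hinv hT
  classical
  have hex : ∃ n : ℕ, ∃ W : Submodule L V, W ≠ ⊥ ∧ W ≤ W₁ ∧ (∀ i, ∀ v ∈ W, T i v ∈ W) ∧
      Module.finrank L W = n :=
    ⟨_, W₁, hW₁, le_rfl, hinv, rfl⟩
  obtain ⟨W, hW0, hWle, hW, hWn⟩ := Nat.find_spec hex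
  have hmin : ∀ W' : Submodule L V, W' ≠ ⊥ → (∀ i, ∀ v ∈ W', T i v ∈ W') → W' ≤ W → W' = W := by
    intro W' h0 h1 hle
    refine Submodule.eq_of_le_of_finrank_le hle ?_
    rw [hWn]
    exact Nat.find_min' hex ⟨W', h0, hle.trans hWle, h1, rfl⟩
  obtain ⟨v, hvW, hv0⟩ := (Submodule.ne_bot_iff W).1 hW0
  refine ⟨v, hWle hvW, hv0, fun i => ?_⟩
  have : Nontrivial W := Submodule.nontrivial_iff_ne_bot.2 hW0
  obtain ⟨c, hc⟩ := Module.End.exists_eigenvalue ((T i).restrict (hW i))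
  obtain ⟨w, hw⟩ := hc.exists_hasEigenvector
  have hw1 : T i w = c • (w : V) := by
    have := congrArg (fun y : W => (y : V)) hw.apply_eq_smul
    simpa using this
  have hw0 : (w : V) ≠ 0 := fun h => hw.2 (Subtype.ext h)
  have := hmin (W ⊓ Module.End.eigenspace (T i) c)
    ((Submodule.ne_bot_iff _).2 ⟨w, ⟨w.2, Module.End.mem_eigenspace_iff.2 hw1⟩, hw0⟩)
    (fun j x hx => ⟨hW j x hx.1, by
      have h2 := Module.End.mem_eigenspace_iff.1 hx.2
      refine Module.End.mem_eigenspace_iff.2 ?_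
      rw [hT i j x (hWle hx.1), h2, map_smul]⟩) inf_le_left
  rw [← this] at hvW
  exact ⟨c, Module.End.mem_eigenspace_iff.1 hvW.2⟩

end Pool.Agent.Work.MP_11a08a_al.Af
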