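import Pool.Agent.Work.MP_11a08a_al.Fr.Ex

/-!
Definitions and statements for almost free actions and products of boundedly many free pieces
(paper: team store `h60_11a08a_af.md`, extending `h73_11a08a_frob.md`).
-/

set_option autoImplicit false

open Finset Filter
open scoped Pointwise

namespace Pool.Agent.Work.MP_11a08a_al.Af

open Pool.Agent.Work.MP_11a08a_al.Cp (Most trk)
open Pool.Agent.Work.MP_11a08a_al.Fr (Faith phi spec Dec Spread half sol op Ind ex Claim)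

/-- `U` is a group of units. -/
structure Grp {R : Type} [CommRing R] (U : Finset R) : Prop where
  one : (1 : R) ∈ U
  mul : ∀ u ∈ U, ∀ v ∈ U, u * v ∈ U
  inv : ∀ u ∈ U, ∃ v ∈ U, u * v = 1

open Classical in
/-- `U` is a group of units and `u - 1` is a unit for all but a fraction `1 / P` of `U`. -/
structure AF {R : Type} [CommRing R] (U : Finset R) (P : ℝ) : Prop where
  grp : Grp U
  le : P ≤ #U
  few : P * #(U.filter fun u => ¬ IsUnit (u - 1)) ≤ #U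

theorem Grp.unit {R : Type} [CommRing R] {U : Finset R} (h : Grp U) {u : R} (hu : u ∈ U) :
    IsUnit u := by
  obtain ⟨v, -, e⟩ := h.inv u hu
  exact IsUnit.of_mul_eq_one v e

theorem AF.mono {R : Type} [CommRing R] {U : Finset R} {P P' : ℝ} (h : AF U P) (hP : P' ≤ P) :
    AF U P' :=
  ⟨h.grp, hP.trans h.le, (mul_le_mul_of_nonneg_right hP (Nat.cast_nonneg _)).trans h.few⟩

open Classical in
/-- Few elements differ from a given one by a nonunit, and large subsets with unit differences. -/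
def StmtSel : Prop :=
  ∀ (R : Type) [CommRing R] (U : Finset R) (P : ℝ), AF U P →
    (∀ v ∈ U, P * #(U.filter fun u => ¬ IsUnit (u - v)) ≤ #U) ∧
    ∀ B ⊆ U, ∃ B₂ ⊆ B, (∀ b ∈ B₂, ∀ b' ∈ B₂, b ≠ b' → IsUnit (b - b')) ∧ P * #B ≤ #U * #B₂

/-- Local Parseval, invariance, and statistical closure of the spectrum under differences. -/
def StmtSpec : Prop :=
  ∀ (R M : Type) [CommRing R] [Fintype R] [DecidableEq R] [AddCommGroup M] [Module R M] [Fintype M]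
    [DecidableEq M] (θ : AddChar M ℂ) (U : Finset R) (P : ℝ), AF U P → Faith R θ →
    (∀ α : ℝ, 0 < α → ∀ t m : M, m ≠ 0 →
      (#(univ.filter fun x : R => t + x • m ∈ spec θ U α) : ℝ) * (α ^ 2 * P) ≤ Fintype.card R) ∧
    (∀ t, ∀ u ∈ U, phi θ U (u • t) = phi θ U t) ∧
    ∀ α : ℝ, 0 < α → α ^ 2 / 2 * (#(spec θ U α) : ℝ) ^ 2 ≤
      #((spec θ U α ×ˢ spec θ U α).filter fun p => p.1 - p.2 ∈ spec θ U (α ^ 2 / 2))

/-- A dense part of an invariant set has a small sum set with many of its dilates. -/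
def StmtInv : Prop :=
  ∀ (R M : Type) [CommRing R] [DecidableEq R] [AddCommGroup M] [Module R M] [DecidableEq M]
    (U : Finset R) (A A' : Finset M) (ρ D : ℝ), Grp U →
    (∀ u ∈ U, ∀ a ∈ A, u • a ∈ A) → A' ⊆ A → A'.Nonempty → 0 < ρ → ρ * #A ≤ #A' → 1 ≤ D →
    (#(A' - A') : ℝ) ≤ D * #A' →
    ∃ B ⊆ U, ρ / 2 * #U ≤ #B ∧ ∀ u ∈ B, (#(A' + u • A') : ℝ) ≤ 2 * D ^ 4 / ρ * #A'

/-- A set that does not grow fills a subring. -/
def StmtGrow : Prop :=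
  ∀ (R : Type) [CommRing R] [Fintype R] [DecidableEq R] (B B₂ S : Finset R) (W : ℝ), B₂ ⊆ S →
    (∀ b ∈ B, ∀ b' ∈ B₂, b * b' ∈ S) →
    (0 : R) ∈ S → (1 : R) ∈ S → (∀ b ∈ B₂, ∀ b' ∈ B₂, b ≠ b' → IsUnit (b - b')) → 2 * W < #B₂ →
    (#(op (op (op S))) : ℝ) ≤ W * #S →
    ∃ Q : Subring R, (∀ b ∈ B, b ∈ Q) ∧ (Nat.card Q : ℝ) ≤ 2 * W * #S

/-- The sum-product estimate. -/
def StmtSP : Prop :=
  ∀ J : ℕ, ∃ c : ℕ, ∀ (R M : Type) [CommRing R] [Fintype R] [DecidableEq R] [AddCommGroup M]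
    [Module R M] [DecidableEq M] (A : Finset M) (B B₂ : Finset R) (W μ ρ : ℝ), A.Nonempty → 1 ≤ W →
    1 ≤ μ → 0 ≤ ρ → (#(A - A) : ℝ) ≤ W * #A → (∀ u ∈ B, (#(A + u • A) : ℝ) ≤ W * #A) → B₂ ⊆ B →
    (∀ b ∈ B₂, ∀ b' ∈ B₂, b ≠ b' → IsUnit (b - b')) →
    (∀ Q : Subring R, (∀ b ∈ B, b ∈ Q) → Q = ⊤) → 2 * μ < #B₂ → (Fintype.card R : ℝ) ≤ μ ^ J →
    (∀ a m : M, m ≠ 0 → (#(univ.filter fun x : R => a + x • m ∈ A) : ℝ) ≤ ρ * Fintype.card R) →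
    (#A : ℝ) ≤ 2 * μ * W ^ c * (1 + ρ * #A)

/-- The exponential sum bound at a scale where the spectrum does not grow. -/
def StmtBGK0 : Prop :=
  ∀ J : ℕ, ∃ c : ℕ, ∀ (R M : Type) [CommRing R] [Fintype R] [DecidableEq R] [AddCommGroup M]
    [Module R M] [Fintype M] [DecidableEq M] (θ : AddChar M ℂ) (U : Finset R) (P lam α μ : ℝ),
    AF U P → Faith R θ → 2 ^ 13 ≤ lam → 0 < α → 1 / lam ≤ α ^ 2 / 2 →
    (∃ t ∈ spec θ U α, t ≠ 0) → (#(spec θ U (α ^ 2 / 2)) : ℝ) ≤ lam * #(spec θ U α) → 1 ≤ μ →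
    (Fintype.card R : ℝ) ≤ μ ^ J → 2 * μ * lam ^ 2 ≤ P → Spread U (1 / lam ^ 2) →
    P ≤ μ * lam ^ c

/-- The exponential sum bound, module form. -/
def StmtBGK1 : Prop :=
  ∀ η : ℝ, 0 < η → ∃ δ : ℝ, 0 < δ ∧ ∃ N₀ : ℕ, ∀ (R M : Type) [CommRing R] [Fintype R]
    [DecidableEq R] [AddCommGroup M] [Module R M] [Fintype M] [DecidableEq M] (θ : AddChar M ℂ)
    (U : Finset R), N₀ ≤ Fintype.card R → Fintype.card M ≤ Fintype.card R →
    AF U ((Fintype.card R : ℝ) ^ η) → Faith R θ → Spread U ((Fintype.card R : ℝ) ^ (-η)) →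
    ∀ t, t ≠ 0 → ‖phi θ U t‖ ≤ (Fintype.card R : ℝ) ^ (-δ) * #U

/-- The exponential sum bound. -/
def StmtBGK : Prop :=
  ∀ η : ℝ, 0 < η → ∃ δ : ℝ, 0 < δ ∧ ∃ N₀ : ℕ, ∀ (R : Type) [CommRing R] [Fintype R]
    [DecidableEq R] (U : Finset R), N₀ ≤ Fintype.card R → AF U ((Fintype.card R : ℝ) ^ η) →
    Spread U ((Fintype.card R : ℝ) ^ (-η)) → Dec U ((Fintype.card R : ℝ) ^ (-δ))

/-- A second linear relation is rare. -/
def StmtCnt1 : Prop :=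
  ∀ (R M : Type) [CommRing R] [Fintype R] [DecidableEq R] [AddCommGroup M] [Module R M] [Finite M]
    [DecidableEq M] (U : Finset R) (P : ℝ) (k : ℕ) (τ : ℝ), AF U P → 0 < P → 0 ≤ τ →
    (Fintype.card R : ℝ) * τ ^ k ≤ 1 → Dec U τ →
    ∀ (c : Fin k ⊕ Fin k → M) (i₀ : Fin k ⊕ Fin k), c i₀ = 0 → c ≠ 0 →
      (#((sol U k).filter fun w => ∑ i, w i • c i = 0) : ℝ) * (Fintype.card R : ℝ) ^ 2 ≤
        (Fintype.card R / P + 2 * k * Fintype.card R * τ + 1) * (#U : ℝ) ^ (2 * k)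

/-- Independent shifts. -/
def StmtShift : Prop :=
  ∀ (R M : Type) [CommRing R] [DecidableEq R] [AddCommGroup M] [Module R M] [DecidableEq M]
    (U : Finset R) (P : ℝ) (s : ℕ), AF U P →
    (∀ c : Fin s → M, c ≠ 0 →
      (#((Fintype.piFinset fun _ : Fin s => U).filter fun w => ∑ i, w i • c i = 0) : ℝ) * P ≤
        (#U : ℝ) ^ s) ∧
    ∀ (S : Finset R) (σ : ℝ), S ⊆ U → σ * #U ≤ #S →
      #((Fintype.piFinset fun _ : Fin s => U).filter fun w =>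
        2 * (1 - σ) ^ s * #U < (#(U.filter fun u => ∀ i, w i * u ∉ S) : ℝ)) * 2 ≤ #U ^ s

/-- The data of a sequence of counterexamples. -/
structure Dat (𝒰 : Ultrafilter ℕ) {R M K : ℕ → Type} [∀ n, CommRing (R n)] [∀ n, Fintype (R n)]
    [∀ n, DecidableEq (R n)] [∀ n, AddCommGroup (M n)] [∀ n, Module (R n) (M n)]
    [∀ n, DecidableEq (M n)] [∀ n, Field (K n)] (χ : ∀ n, AddChar (M n) (K n))
    (U : ∀ n, Finset (R n)) {L : Type} [Field L] (π : (∀ n, K n) →+* L) (k : ℕ) : Prop where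
  le : (𝒰 : Filter ℕ) ≤ atTop
  fai : ∀ n, Faith (R n) (χ n)
  grp : ∀ n, Grp (U n)
  surj : Function.Surjective π
  ker : ∀ x, π x = 0 ↔ ∀ᶠ n in (𝒰 : Filter ℕ), x n = 0
  hk : 1 ≤ k
  ne : ∀ n, (sol (U n) k).Nonempty
  c2 : ∀ n, ∀ Z : Finset (R n), (#((sol (U n) k).filter fun w => half w ∈ Z) : ℝ) *
    Fintype.card (R n) ≤ 4 * #Z * #(sol (U n) k)
  c1 : ∀ ε : ℝ, 0 < ε → ∀ᶠ n in (𝒰 : Filter ℕ), ∀ (c : Fin k ⊕ Fin k → M n) i₀,
    c i₀ = 0 → c ≠ 0 →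
      (#((sol (U n) k).filter fun w => ∑ i, w i • c i = 0) : ℝ) ≤ ε * #(sol (U n) k)
  big : ∀ P : ℝ, ∀ᶠ n in (𝒰 : Filter ℕ), AF (U n) P
  dec : ∀ ε : ℝ, 0 < ε → ∀ᶠ n in (𝒰 : Filter ℕ), Dec (U n) ε

section

variable {𝒰 : Ultrafilter ℕ} {R M K : ℕ → Type} [∀ n, CommRing (R n)] [∀ n, Fintype (R n)]
  [∀ n, DecidableEq (R n)] [∀ n, AddCommGroup (M n)] [∀ n, Module (R n) (M n)]
  [∀ n, DecidableEq (M n)] [∀ n, Field (K n)] {χ : ∀ n, AddChar (M n) (K n)}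
  {U : ∀ n, Finset (R n)} {L : Type} [Field L] {π : (∀ n, K n) →+* L} {k : ℕ}

theorem Dat.congr (H : Dat 𝒰 χ U π k) {x y : ∀ n, K n}
    (h : ∀ᶠ n in (𝒰 : Filter ℕ), x n = y n) : π x = π y := by
  rw [← sub_eq_zero, ← map_sub, H.ker]
  filter_upwards [h] with n hn
  exact sub_eq_zero.2 hn

theorem Dat.ex_ne (H : Dat 𝒰 χ U π k) (x : ∀ n, M n) : ex χ π x ≠ 0 := by
  intro h
  obtain ⟨n, hn⟩ := ((H.ker _).1 h).exists
  exact Pool.Agent.Work.MP_11a08a_al.Fr.addChar_ne _ _ hn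

end

/-- Genericity of the half sum. -/
def StmtGen : Prop :=
  ∀ (𝒰 : Ultrafilter ℕ) (R M K : ℕ → Type) [∀ n, CommRing (R n)] [∀ n, Fintype (R n)]
    [∀ n, DecidableEq (R n)] [∀ n, AddCommGroup (M n)] [∀ n, Module (R n) (M n)]
    [∀ n, DecidableEq (M n)] [∀ n, Field (K n)] (χ : ∀ n, AddChar (M n) (K n))
    (U : ∀ n, Finset (R n)) (L : Type) [Field L] (π : (∀ n, K n) →+* L) (k : ℕ),
    Dat 𝒰 χ U π k → ∀ (K₀ : Subfield L) (I : Type) [Fintype I] (v : I → ∀ n, M n), Ind 𝒰 v →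
    ∀ (Q : MvPolynomial I K₀) (m : ℕ) (ε : ℝ), 0 < ε →
    Most 𝒰 (fun n => sol (U n) k) ε fun w => Most 𝒰 U (1 / (m + 1)) fun u =>
      MvPolynomial.aeval (fun x => ex χ π fun n => (half (w n) * u n) • v x n) Q = 0 → Q = 0

/-- The step of the recursion. -/
def StmtStep : Prop :=
  ∀ (𝒰 : Ultrafilter ℕ) (R M K : ℕ → Type) [∀ n, CommRing (R n)] [∀ n, Fintype (R n)]
    [∀ n, DecidableEq (R n)] [∀ n, AddCommGroup (M n)] [∀ n, Module (R n) (M n)]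
    [∀ n, DecidableEq (M n)] [∀ n, Field (K n)] (χ : ∀ n, AddChar (M n) (K n))
    (U : ∀ n, Finset (R n)) (L : Type) [Field L] (π : (∀ n, K n) →+* L) (k : ℕ),
    Dat 𝒰 χ U π k → ∀ (K₀ : Subfield L), Countable K₀ → ∀ (g m : ℕ) (c : ℝ), 0 < c →
    Claim 𝒰 χ U π K₀ g m c → Claim 𝒰 χ U π K₀ ((2 * k - 1) * g) (2 * k * m) ((2 * k + 1) * c)

open Classical in
/-- The base of the recursion. -/
def StmtBase : Prop :=
  ∀ (𝒰 : Ultrafilter ℕ) (R M K : ℕ → Type) [∀ n, CommRing (R n)] [∀ n, Fintype (R n)]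
    [∀ n, DecidableEq (R n)] [∀ n, AddCommGroup (M n)] [∀ n, Module (R n) (M n)]
    [∀ n, DecidableEq (M n)] [∀ n, Field (K n)] (χ : ∀ n, AddChar (M n) (K n))
    (U : ∀ n, Finset (R n)) (L : Type) [Field L] (π : (∀ n, K n) →+* L) (k : ℕ),
    Dat 𝒰 χ U π k → ∀ (q : ℕ) (a : Fin q → ∀ n, M n) (β : Fin q → ∀ n, K n) (z : ∀ n, R n),
    (∀ n, ∑ l, β l n * χ n (z n • a l n) ≠ 0) →
    (∀ ε : ℝ, 0 < ε → ∀ᶠ n in (𝒰 : Filter ℕ),
      (#((U n).filter fun u => ∑ l, β l n * χ n (u • a l n) ≠ 0) : ℝ) ≤ ε * #(U n)) →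
    ∃ K₀ : Subfield L, Countable K₀ ∧ ∃ σ : ℝ, 0 < σ ∧ σ < 1 ∧
      ∀ s : ℕ, Claim 𝒰 χ U π K₀ (q * s) 1 (3 * (1 - σ) ^ s)

open Classical in
/-- The core, module form. -/
def StmtNT0 : Prop :=
  ∀ δ : ℝ, 0 < δ → ∀ q : ℕ, ∃ c : ℝ, 0 < c ∧ ∃ N₀ : ℕ, ∀ (R M K : Type) [CommRing R] [Fintype R]
    [DecidableEq R] [AddCommGroup M] [Module R M] [Finite M] [Field K] (χ : AddChar M K)
    (U : Finset R), N₀ ≤ Fintype.card R → AF U ((Fintype.card R : ℝ) ^ δ) → Faith R χ →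
    Dec U ((Fintype.card R : ℝ) ^ (-δ)) → ∀ (a : Fin q → M) (β : Fin q → K),
      (∃ z : R, ∑ l, β l * χ (z • a l) ≠ 0) →
      c * #U ≤ #(U.filter fun u => ∑ l, β l * χ (u • a l) ≠ 0)

open Classical in
/-- The core for a group that is spread out. -/
def StmtNT1 : Prop :=
  ∀ η : ℝ, 0 < η → ∀ q : ℕ, ∃ c : ℝ, 0 < c ∧ ∃ N₀ : ℕ, ∀ (R K : Type) [CommRing R] [Fintype R]
    [DecidableEq R] [Field K] (U : Finset R), N₀ ≤ Fintype.card R →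
    AF U ((Fintype.card R : ℝ) ^ η) → Spread U ((Fintype.card R : ℝ) ^ (-η)) →
    ∀ (ψ : Fin q → AddChar R K) (β : Fin q → K), (∃ z, ∑ l, β l * ψ l z ≠ 0) →
      c * #U ≤ #(U.filter fun u => ∑ l, β l * ψ l u ≠ 0)

open Classical in
/-- A subring in which the group is spread out. -/
def StmtSub : Prop :=
  ∀ (R : Type) [CommRing R] [Fintype R] [DecidableEq R] (U : Finset R) (η ε : ℝ), 0 < ε →
    2 * ε ≤ η → ε ≤ 1 → AF U ((Fintype.card R : ℝ) ^ η) →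
    ∃ (R' : Type) (_ : CommRing R') (_ : Fintype R') (_ : DecidableEq R') (f : R' →+* R)
      (U' : Finset R'), Function.Injective f ∧ AF U' ((Fintype.card R' : ℝ) ^ (ε * η / 4)) ∧
      (∀ u ∈ U', f u ∈ U) ∧ (#U : ℝ) ≤ (Fintype.card R : ℝ) ^ ε * #U' ∧
      Spread U' ((Fintype.card R' : ℝ) ^ (-(ε * η / 4)))

open Classical in
/-- A sparse sum of characters that does not vanish on `U` is nonzero on a large part of it. -/
def StmtNT : Prop :=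
  ∀ η ε : ℝ, 0 < η → 0 < ε → ∀ q : ℕ, ∃ c : ℝ, 0 < c ∧ ∀ (R K : Type) [CommRing R] [Fintype R]
    [DecidableEq R] [Field K] (U : Finset R), AF U ((Fintype.card R : ℝ) ^ η) →
    ∀ (ψ : Fin q → AddChar R K) (β : Fin q → K), (∃ u ∈ U, ∑ l, β l * ψ l u ≠ 0) →
      c * #U ≤ (Fintype.card R : ℝ) ^ ε * #(U.filter fun u => ∑ l, β l * ψ l u ≠ 0)

/-- Modulo each of the ideals, `u - 1` is zero or a unit. -/
def Pieces {R : Type} [CommRing R] {d : ℕ} (U : Finset R) (I : Fin d → Ideal R) : Prop :=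
  ∀ i, ∀ u ∈ U, u - 1 ∈ I i ∨ ∃ y, 1 - (u - 1) * y ∈ I i

open Classical in
/-- The case in which all kernels are small. -/
def StmtQuo : Prop :=
  ∀ η ε : ℝ, 0 < η → 0 < ε → ∀ q d : ℕ, ∃ c : ℝ, 0 < c ∧ ∀ (R K : Type) [CommRing R] [Fintype R]
    [DecidableEq R] [Field K] (U : Finset R) (I : Fin (d + 1) → Ideal R), Grp U → Pieces U I →
    (∀ i, (Fintype.card R : ℝ) ^ η * #(U.filter fun u => u - 1 ∈ I i) ≤ #U) →
    ∀ (ψ : Fin q → AddChar R K) (β : Fin q → K), (∀ l y, (∀ i, y ∈ I i) → ψ l y = 1) →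
      (∃ u ∈ U, ∑ l, β l * ψ l u ≠ 0) →
      c * #U ≤ (Fintype.card R : ℝ) ^ ε * #(U.filter fun u => ∑ l, β l * ψ l u ≠ 0)

open Classical in
/-- The number theoretic theorem for boundedly many pieces. -/
def StmtNT3 : Prop :=
  ∀ (q d : ℕ) (ε : ℝ), 0 < ε → ∃ c : ℝ, 0 < c ∧ ∀ (R K : Type) [CommRing R] [Fintype R]
    [DecidableEq R] [Field K] (U : Finset R) (I : Fin d → Ideal R), Grp U → Pieces U I →
    ∀ (ψ : Fin q → Fin d → AddChar R K) (β : Fin q → K), (∀ l i, ∀ y ∈ I i, ψ l i y = 1) →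
      (∃ u ∈ U, ∑ l, β l * ∏ i, ψ l i u ≠ 0) →
      c * #U ≤ (Fintype.card R : ℝ) ^ ε * #(U.filter fun u => ∑ l, β l * ∏ i, ψ l i u ≠ 0)

/-- `G = A H` with `H` abelian and `A` the abelian product of the normal subgroups `A i`, on each
of which every element of `H` acts trivially or without fixed points. -/
structure SplitG {G : Type} [Group G] {d : ℕ} (A : Fin d → Subgroup G) (H : Subgroup G) : Prop where
  normal : ∀ i, (A i).Normal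
  comm : ∀ i j, ∀ a ∈ A i, ∀ b ∈ A j, a * b = b * a
  ab : ∀ h ∈ H, ∀ h' ∈ H, h * h' = h' * h
  top : (⨆ i, A i) ⊔ H = ⊤
  fpf : ∀ i, ∀ h ∈ H, ∀ a ∈ A i, a ≠ 1 → h * a = a * h → ∀ b ∈ A i, h * b = b * h

/-- The join is abelian and normal, and the two factorisations. -/
def StmtFac : Prop :=
  ∀ (G : Type) [Group G] (d : ℕ) (A : Fin d → Subgroup G) (H : Subgroup G), SplitG A H →
    (⨆ i, A i).Normal ∧ (∀ a ∈ ⨆ i, A i, ∀ b ∈ ⨆ i, A i, a * b = b * a) ∧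
    (∀ g : G, ∃ a ∈ ⨆ i, A i, ∃ h ∈ H, g = a * h) ∧
    ∀ (K : Type) [CommMonoid K] (F : ↥(⨆ i, A i) →* K) (a : ↥(⨆ i, A i)),
      ∃ c : Fin d → ↥(⨆ i, A i), (∀ i, (c i : G) ∈ A i) ∧ F a = ∏ i, F (c i)

/-- The ring attached to a character. -/
def StmtRing : Prop :=
  ∀ (G : Type) [Group G] [Finite G] (d : ℕ) (A : Fin d → Subgroup G) (H : Subgroup G), SplitG A H →
    ∀ (L : Type) [Field L] (χ : ↥(⨆ i, A i) →* L),
    ∃ (R : Type) (_ : CommRing R) (_ : Fintype R) (_ : DecidableEq R) (u : G →* R)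
      (Ψ : ↥(⨆ i, A i) → AddChar R L) (I : Fin d → Ideal R), Fintype.card R ≤ Nat.card G ∧
      (∀ i g, u g - 1 ∈ I i ∨ ∃ y, 1 - (u g - 1) * y ∈ I i) ∧ (∀ a ∈ ⨆ i, A i, u a = 1) ∧
      (∀ y, (∀ a, Ψ a y = 1) → y = 0) ∧ (∀ a b y, Ψ (a * b) y = Ψ a y * Ψ b y) ∧
      (∀ i, ∀ a : ↥(⨆ i, A i), (a : G) ∈ A i → ∀ y ∈ I i, Ψ a y = 1) ∧
      ∀ (a b : ↥(⨆ i, A i)) (g : G), (b : G) = g⁻¹ * a * g → Ψ a (u g) = χ b

/-- Commuting operators have a common eigenvector in every nonzero invariant subspace. -/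
def StmtCE : Prop :=
  ∀ (L V : Type) [Field L] [IsAlgClosed L] [AddCommGroup V] [Module L V] [FiniteDimensional L V]
    (ι : Type) (T : ι → V →ₗ[L] V) (W : Submodule L V), W ≠ ⊥ → (∀ i, ∀ v ∈ W, T i v ∈ W) →
    (∀ i j, ∀ v ∈ W, T i (T j v) = T j (T i v)) →
    ∃ v ∈ W, v ≠ 0 ∧ ∀ i, ∃ ω : L, T i v = ω • v

/-- The irreducible representations are monomial. -/
def StmtStruct : Prop :=
  ∀ (L G V : Type) [Field L] [IsAlgClosed L] [Group G] [Finite G] [AddCommGroup V] [Module L V]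
    [FiniteDimensional L V] (σ : Representation L G V) (d : ℕ) (A : Fin d → Subgroup G)
    (H : Subgroup G), SplitG A H →
    (∀ W : Submodule L V, (∀ g, ∀ v ∈ W, σ g v ∈ W) → W = ⊥ ∨ W = ⊤) →
    Module.finrank L V = 0 ∨
    ∃ (R : Type) (_ : CommRing R) (_ : Fintype R) (_ : DecidableEq R) (U : Finset R)
      (I : Fin d → Ideal R) (b : Module.Basis U L V) (u : G → R) (π : G → U → U) (κ : G → U → L),
      Fintype.card R ≤ Nat.card G ∧ Grp U ∧ Pieces U I ∧ (∀ g, u g ∈ U) ∧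
      (∀ g x, (π g x : R) = u g * x) ∧ (∀ g x, σ g (b x) = κ g x • b (π g x)) ∧
      (∀ g x, κ g x ≠ 0) ∧
      ∀ g g', u g = u g' → ∃ (ψ : Fin d → AddChar R L) (ω : L), (∀ i, ∀ y ∈ I i, ψ i y = 1) ∧
        ∀ x : U, κ g' x = ω * (∏ i, ψ i x) * κ g x

/-- The rank bound over algebraically closed fields. -/
def StmtRep : Prop :=
  ∀ (δ : ℝ), 0 < δ → ∀ q d : ℕ, ∃ c : ℝ, 0 < c ∧
    ∀ (L G V : Type) [Field L] [IsAlgClosed L] [Group G] [Finite G] [AddCommGroup V] [Module L V]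
      [FiniteDimensional L V] (σ : Representation L G V) (A : Fin d → Subgroup G) (H : Subgroup G),
      SplitG A H → (∀ W : Submodule L V, (∀ g, ∀ v ∈ W, σ g v ∈ W) → W = ⊥ ∨ W = ⊤) →
      ∀ (h : Fin q → G) (β : Fin q → L), ∑ l, β l • σ (h l) ≠ 0 →
        (Module.finrank L V : ℝ) ≤
          c * (Nat.card G : ℝ) ^ δ * Module.finrank L (LinearMap.range (∑ l, β l • σ (h l)))

end Pool.Agent.Work.MP_11a08a_al.Af
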