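import Pool.Agent.Work.MP_11a08a_al.Af.Defs
import Pool.Agent.Work.MP_11a08a_al.Fr.Gen

/-!
Genericity of the half sum.
-/

set_option autoImplicit false

open Finset Filter

namespace Pool.Agent.Work.MP_11a08a_al.Af

open Pool.Agent.Work.MP_11a08a_al.Cp (Most trk)
open Pool.Agent.Work.MP_11a08a_al.Fr (Faith phi spec Dec Spread half sol op Ind ex Claim
  gen_chr gen_chr_apply gen_sep ex_mono)

theorem afgen_markov {R : Type} [CommRing R] [Fintype R] [DecidableEq R] {U : Finset R}
    (hU : Grp U) {k : ℕ}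
    (h : ∀ Z : Finset R,
      (#((sol U k).filter fun w => half w ∈ Z) : ℝ) * Fintype.card R ≤ 4 * #Z * #(sol U k))
    (Z : Finset R) {ε M : ℝ} (hM : 0 < M) (hZ : (#Z : ℝ) ≤ ε * Fintype.card R) :
    (#((sol U k).filter fun w => (#U : ℝ) < M * #(U.filter fun u => half w * u ∈ Z)) : ℝ) ≤
      4 * M * ε * #(sol U k) := by
  classical
  have hr : (0 : ℝ) < Fintype.card R := by exact_mod_cast Fintype.card_pos
  have hn : (0 : ℝ) < #U := by exact_mod_cast card_pos.2 ⟨1, hU.one⟩
  have h1 : ∀ u ∈ U, (#((sol U k).filter fun w => half w * u ∈ Z) : ℝ) ≤ 4 * ε * #(sol U k) := by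
    intro u hu
    have h2 := h (univ.filter fun z => z * u ∈ Z)
    have h3 : #(univ.filter fun z => z * u ∈ Z) ≤ #Z :=
      card_le_card_of_injOn (fun z => z * u) (fun z hz => (mem_filter.1 hz).2)
        fun z _ z' _ e => (hU.unit hu).mul_right_cancel e
    have h4 : (#(univ.filter fun z => z * u ∈ Z) : ℝ) ≤ ε * Fintype.card R :=
      (Nat.cast_le.2 h3).trans hZ
    simp only [mem_filter, mem_univ, true_and] at h2
    refine le_of_mul_le_mul_right (h2.trans ?_) hr
    calc 4 * (#(univ.filter fun z => z * u ∈ Z) : ℝ) * #(sol U k)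
        ≤ 4 * (ε * Fintype.card R) * #(sol U k) := by gcongr
      _ = _ := by ring
  have h5 : ∑ w ∈ sol U k, (#(U.filter fun u => half w * u ∈ Z) : ℝ) ≤
      #U * (4 * ε * #(sol U k)) := by
    have e : ∑ w ∈ sol U k, (#(U.filter fun u => half w * u ∈ Z) : ℝ) =
        ∑ u ∈ U, (#((sol U k).filter fun w => half w * u ∈ Z) : ℝ) := by
      simp only [card_filter, Nat.cast_sum]
      exact sum_comm
    rw [e]
    exact (sum_le_card_nsmul _ _ _ h1).trans_eq (nsmul_eq_mul _ _)
  set S := (sol U k).filter fun w => (#U : ℝ) < M * #(U.filter fun u => half w * u ∈ Z)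
  have h6 : (#S : ℝ) * #U ≤ M * ∑ w ∈ sol U k, (#(U.filter fun u => half w * u ∈ Z) : ℝ) := by
    rw [mul_sum, ← nsmul_eq_mul]
    refine (card_nsmul_le_sum _ _ _ fun w hw => (mem_filter.1 hw).2.le).trans ?_
    exact sum_le_sum_of_subset_of_nonneg (filter_subset _ _) fun _ _ _ => by positivity
  refine le_of_mul_le_mul_right (h6.trans ?_) hn
  calc M * ∑ w ∈ sol U k, (#(U.filter fun u => half w * u ∈ Z) : ℝ)
      ≤ M * (#U * (4 * ε * #(sol U k))) := by gcongr
    _ = _ := by ring

theorem gen (hS : Fr.StmtSR) : StmtGen := by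
  intro 𝒰 R M K _ _ _ _ _ _ _ χ U L _ π k H K₀ I _ v hv Q m ε hε
  classical
  by_cases hQ : Q = 0
  · exact ⟨fun _ => ∅, Eventually.of_forall fun n => by simp; positivity, fun _ _ _ =>
      ⟨fun _ => ∅, Eventually.of_forall fun n => by simp; positivity, fun _ _ _ _ => hQ⟩⟩
  have hm : (0 : ℝ) < m + 1 := by positivity
  choose ρ hρ using H.surj
  let a : ∀ n, (I →₀ ℕ) → M n := fun n d => ∑ x, d x • v x n
  let c : ∀ n, (I →₀ ℕ) → K n := fun n d => ρ ((Q.coeff d : K₀) : L) n
  let Z : ∀ n, Finset (R n) := fun n =>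
    univ.filter fun z => ∑ d ∈ Q.support, c n d * gen_chr (χ n) (a n d) z = 0
  obtain ⟨L₀, h₀⟩ := hS #Q.support (ε / (4 * (m + 1))) (by positivity)
  have hinj : ∀ᶠ n in (𝒰 : Filter ℕ), ∀ d ∈ Q.support, ∀ d' ∈ Q.support, ∀ j ∈ Icc 1 L₀,
      d ≠ d' → j • a n d - j • a n d' ≠ 0 := by
    rw [eventually_all_finset]
    intro d _
    rw [eventually_all_finset]
    intro d' _
    rw [eventually_all_finset]
    intro j hj
    by_cases hd : d = d'
    · exact Eventually.of_forall fun _ h => absurd hd h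
    have hj1 : (j : ℤ) ≠ 0 := by have := (mem_Icc.1 hj).1; omega
    have h1 : (fun x => (j : ℤ) * ((d x : ℤ) - d' x)) ≠ 0 := fun h => hd (Finsupp.ext fun x => by
      have := (mul_eq_zero.1 (congrFun h x)).resolve_left hj1
      omega)
    filter_upwards [hv _ h1] with n hn _ h2
    refine hn (Eq.trans ?_ h2)
    simp only [a, smul_sum, ← sum_sub_distrib]
    refine sum_congr rfl fun x _ => ?_
    rw [mul_smul, sub_smul, smul_sub, natCast_zsmul, natCast_zsmul, natCast_zsmul, natCast_zsmul]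
  obtain ⟨d₀, hd₀⟩ := MvPolynomial.support_nonempty.2 hQ
  have hc : ∀ᶠ n in (𝒰 : Filter ℕ), c n d₀ ≠ 0 := by
    refine Ultrafilter.eventually_not.2 fun h => MvPolynomial.mem_support_iff.1 hd₀ ?_
    have := (H.ker (ρ ((Q.coeff d₀ : K₀) : L))).2 h
    rw [hρ] at this
    exact_mod_cast this
  refine ⟨fun n => (sol (U n) k).filter fun w =>
    (#(U n) : ℝ) < (m + 1) * #((U n).filter fun u => half w * u ∈ Z n), ?_, fun w hw hb => ?_⟩
  · filter_upwards [hinj, hc] with n h1 h2
    have h4 := h₀ (R n) (K n) _ Q.support (fun d => gen_chr (χ n) (a n d)) (c n) le_rfl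
      (fun d hd d' hd' e j j1 j2 => gen_sep (H.fai n) (h1 d hd d' hd' j (mem_Icc.2 ⟨j1, j2⟩) e))
      ⟨d₀, hd₀, h2⟩
    refine (afgen_markov (H.grp n) (H.c2 n) (Z n) hm h4).trans_eq ?_
    field_simp
  · refine ⟨fun n => (U n).filter fun u => half (w n) * u ∈ Z n, ?_, fun u hu hz h0 => ?_⟩
    · filter_upwards [hb] with n h1
      rw [mem_filter, not_and, not_lt] at h1
      rw [one_div, inv_mul_eq_div, le_div_iff₀ hm, mul_comm]
      exact h1 (hw n)
    · exfalso
      have h1 : π (fun n => ∑ d ∈ Q.support,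
          c n d * gen_chr (χ n) (a n d) (half (w n) * u n)) = 0 := by
        rw [← h0, MvPolynomial.aeval_def, MvPolynomial.eval₂_eq']
        have : (fun n => ∑ d ∈ Q.support, c n d * gen_chr (χ n) (a n d) (half (w n) * u n)) =
            ∑ d ∈ Q.support, ρ ((Q.coeff d : K₀) : L) *
              fun n => gen_chr (χ n) (a n d) (half (w n) * u n) := by
          funext n
          simp [Finset.sum_apply, c]
        rw [this, map_sum]
        refine sum_congr rfl fun d _ => ?_
        rw [map_mul, hρ, ex_mono]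
        congr 1
        unfold ex
        congr 1
        funext n
        rw [gen_chr_apply]
        simp only [a, smul_sum]
        congr 1
        exact sum_congr rfl fun x _ => (smul_comm _ _ _).symm
      obtain ⟨n, h2, h3⟩ := (((H.ker _).1 h1).and hz).exists
      exact h3 (mem_filter.2 ⟨hu n, mem_filter.2 ⟨mem_univ _, h2⟩⟩)

end Pool.Agent.Work.MP_11a08a_al.Af
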