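import Pool.Agent.Work.MP_11a08a_al.Af.Defs
import Pool.Agent.Work.MP_11a08a_al.Fr.NT0

/-!
The core, module form.
-/

set_option autoImplicit false

open Finset Filter

namespace Pool.Agent.Work.MP_11a08a_al.Af

open Pool.Agent.Work.MP_11a08a_al.Fr (Faith phi spec Dec Spread half sol op Ind ex Claim
  nt0_dec)

theorem nt0 (h2 : Fr.StmtCnt2) (h1 : StmtCnt1) (hB : StmtBase) (hS : StmtStep)
    (hN : Fr.StmtNum) (hM : Cp.StmtMost) : StmtNT0 := by
  classical
  intro δ hδ q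
  obtain ⟨k, hk⟩ := exists_nat_ge (1 / δ)
  have hk0 : 1 ≤ k := by
    have : (0 : ℝ) < k := lt_of_lt_of_le (by positivity) hk
    exact_mod_cast this
  by_contra hc
  push Not at hc
  choose R M K iR fR dR iM mM fM iK χ U hr hU hχ hdec a β hz hc using
    fun n : ℕ => hc (1 / ((n : ℝ) + 1)) (by positivity) n
  choose z hz using hz
  let 𝒰 : Ultrafilter ℕ := Ultrafilter.of atTop
  have hle : (𝒰 : Filter ℕ) ≤ atTop := Ultrafilter.of_le _
  have hr' : Tendsto (fun n => Fintype.card (R n)) 𝒰 atTop :=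
    (tendsto_atTop_mono hr tendsto_id).mono_left hle
  obtain ⟨L, _, π, hs, h0⟩ := Cp.ult_exists 𝒰 K
  have hr1 : ∀ n, (1 : ℝ) ≤ Fintype.card (R n) := fun n => by
    exact_mod_cast Fintype.card_pos (α := R n)
  have hr0 : ∀ n, (0 : ℝ) < Fintype.card (R n) := fun n => one_pos.trans_le (hr1 n)
  have hθ : ∀ n, (Fintype.card (R n) : ℝ) * ((Fintype.card (R n) : ℝ) ^ (-δ)) ^ k ≤ 1 := by
    intro n
    rw [← Real.rpow_natCast, ← Real.rpow_mul (hr0 n).le, mul_comm,
      ← Real.rpow_add_one (hr0 n).ne']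
    refine Real.rpow_le_one_of_one_le_of_nonpos (hr1 n) ?_
    rw [div_le_iff₀ hδ] at hk
    linarith
  have k2 := fun n => h2 (R n) (U n) k _ (by positivity) (hθ n) (hdec n)
  have k1 := fun n => h1 (R n) (M n) (U n) _ k _ (hU n) (Real.rpow_pos_of_pos (hr0 n) _)
    (by positivity) (hθ n) (hdec n)
  have hn : ∀ n, (0 : ℝ) < #(U n) := fun n => by exact_mod_cast card_pos.2 ⟨1, (hU n).grp.one⟩
  have t0 : Tendsto (fun n => (Fintype.card (R n) : ℝ)) 𝒰 atTop :=
    tendsto_natCast_atTop_atTop.comp hr'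
  have tU : Tendsto (fun n => (Fintype.card (R n) : ℝ) ^ δ) 𝒰 atTop :=
    (tendsto_rpow_atTop hδ).comp t0
  have tτ : Tendsto (fun n => (Fintype.card (R n) : ℝ) ^ (-δ)) 𝒰 (nhds 0) :=
    (tendsto_rpow_neg_atTop hδ).comp t0
  have H : Dat 𝒰 χ U π k := by
    refine ⟨hle, hχ, fun n => (hU n).grp, hs, h0, hk0, fun n => ?_, fun n => (k2 n).2,
      fun ε hε => ?_, fun P => (tU.eventually_ge_atTop P).mono fun n h => (hU n).mono h,
      fun ε hε => ?_⟩
    · rw [← card_pos]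
      have h3 : (0 : ℝ) < Fintype.card (R n) * #(sol (U n) k) :=
        lt_of_lt_of_le (pow_pos (hn n) _) (k2 n).1
      exact_mod_cast (mul_pos_iff_of_pos_left (hr0 n)).1 h3
    · have t1 : Tendsto (fun n => 1 / (Fintype.card (R n) : ℝ) ^ δ +
          2 * k * (Fintype.card (R n) : ℝ) ^ (-δ) + 1 / (Fintype.card (R n) : ℝ)) 𝒰 (nhds (0 + 2 * k * 0 + 0)) :=
        ((tendsto_const_nhds.div_atTop tU).add (tτ.const_mul _)).add
          (tendsto_const_nhds.div_atTop t0)
      rw [mul_zero, add_zero, add_zero] at t1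
      filter_upwards [t1.eventually_le_const hε] with n hn' c i₀ c0 c1
      have h3 := (k1 n c i₀ c0 c1).trans (mul_le_mul_of_nonneg_left (k2 n).1 (by positivity))
      refine le_trans ?_ (mul_le_mul_of_nonneg_right hn' (Nat.cast_nonneg _))
      refine le_of_mul_le_mul_right (h3.trans_eq ?_) (pow_pos (hr0 n) 2)
      have := (hr0 n).ne'
      have := (Real.rpow_pos_of_pos (hr0 n) δ).ne'
      field_simp
    · filter_upwards [tτ.eventually_le_const hε] with n hn' using nt0_dec (hdec n) hn'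
  obtain ⟨K₀, hK₀, σ, hσ0, hσ1, hbase⟩ := hB 𝒰 R M K χ U L π k H q (fun l n => a n l)
    (fun l n => β n l) z hz fun ε hε => by
      filter_upwards [(tendsto_one_div_add_atTop_nhds_zero_nat.mono_left hle).eventually_le_const
        hε] with n hn'
      exact (hc n).le.trans (mul_le_mul_of_nonneg_right hn' (Nat.cast_nonneg _))
  obtain ⟨s, D, hD, hD1⟩ := hN q k σ hk0 hσ0 hσ1
  have hσ : (0 : ℝ) < 1 - σ := by linarith
  have hall : ∀ j : ℕ, Claim 𝒰 χ U π K₀ (q * s * (2 * k - 1) ^ j) ((2 * k) ^ j)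
      ((2 * k + 1) ^ j * (3 * (1 - σ) ^ s)) := by
    intro j
    induction j with
    | zero =>
      simp only [pow_zero, mul_one, one_mul]
      exact hbase s
    | succ j ih =>
      have := hS 𝒰 R M K χ U L π k H K₀ hK₀ _ _ _ (by positivity) ih
      convert this using 1 <;> ring
  obtain ⟨I, _, v, -, hI, hm⟩ := hall D
  obtain ⟨u, -, hu⟩ := (hM 𝒰 _ U hle).2.2.2.2.1 _ _ (fun n => ⟨1, (hU n).grp.one⟩) hD1 hm
  have h3 : (((2 * k) ^ D : ℕ) : ℕ∞) ≤ Fintype.card I := le_add_self.trans hu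
  have h4 : (2 * k) ^ D ≤ Fintype.card I := by exact_mod_cast h3
  omega

end Pool.Agent.Work.MP_11a08a_al.Af
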