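import Pool.Agent.Work.MP_11a08a_al.Af.Defs

/-!
The number theoretic theorem for boundedly many pieces, by induction on the number of pieces.
-/

set_option autoImplicit false

open Finset Filter
open scoped Pointwise

namespace Pool.Agent.Work.MP_11a08a_al.Af

open Classical in
theorem afnt3_grp {R : Type} [CommRing R] {U : Finset R} (hU : Grp U) (I : Ideal R) :
    Grp (U.filter fun u => u - 1 ∈ I) := by
  refine ⟨mem_filter.2 ⟨hU.one, by rw [sub_self]; exact I.zero_mem⟩, ?_, ?_⟩
  · intro u hu v hv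
    obtain ⟨u1, u2⟩ := mem_filter.1 hu
    obtain ⟨v1, v2⟩ := mem_filter.1 hv
    refine mem_filter.2 ⟨hU.mul u u1 v v1, ?_⟩
    have e : u * v - 1 = u * (v - 1) + (u - 1) := by ring
    rw [e]
    exact I.add_mem (I.mul_mem_left _ v2) u2
  · intro u hu
    obtain ⟨u1, u2⟩ := mem_filter.1 hu
    obtain ⟨v, v1, e⟩ := hU.inv u u1
    refine ⟨v, mem_filter.2 ⟨v1, ?_⟩, e⟩
    have e2 : v - 1 = (-v) * (u - 1) := by linear_combination e
    rw [e2]
    exact I.mul_mem_left _ u2

theorem afnt3_val {R K : Type} [CommRing R] [Field K] {q d : ℕ} {I : Fin (d + 1) → Ideal R}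
    (ψ : Fin q → Fin (d + 1) → AddChar R K) (β : Fin q → K)
    (hψ : ∀ l i, ∀ y ∈ I i, ψ l i y = 1) (i : Fin (d + 1)) (u k : R) (hk : k - 1 ∈ I i) :
    ∑ l, (β l * ψ l i u) * ∏ j : Fin d, (ψ l (i.succAbove j)).mulShift u k =
      ∑ l, β l * ∏ j, ψ l j (u * k) := by
  refine sum_congr rfl fun l _ => ?_
  have e : u * k = u + u * (k - 1) := by ring
  have e2 : ψ l i (u * k) = ψ l i u := by
    rw [e, AddChar.map_add_eq_mul, hψ l i _ ((I i).mul_mem_left _ hk), mul_one]
  rw [Fin.prod_univ_succAbove _ i, e2, mul_assoc]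
  simp only [AddChar.mulShift_apply]

theorem nt3 (h : StmtQuo) : StmtNT3 := by
  intro q d
  induction d with
  | zero =>
    intro ε hε
    refine ⟨1, one_pos, ?_⟩
    intro R K _ _ _ _ U I _ _ ψ β _ hu
    classical
    obtain ⟨u, -, hu⟩ := hu
    have N1 : (1 : ℝ) ≤ Fintype.card R := by exact_mod_cast Fintype.card_pos
    have a1 : (1 : ℝ) ≤ (Fintype.card R : ℝ) ^ ε := Real.one_le_rpow N1 hε.le
    refine mul_le_mul a1 ?_ (Nat.cast_nonneg _) (zero_le_one.trans a1)
    refine Nat.cast_le.2 (card_le_card fun v hv => mem_filter.2 ⟨hv, ?_⟩)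
    simpa only [univ_eq_empty, prod_empty] using hu
  | succ d ih =>
    intro ε hε
    obtain ⟨c₁, c1, H₁⟩ := ih (ε / 2) (half_pos hε)
    obtain ⟨c₂, c2, H₂⟩ := h (ε / 2) ε (half_pos hε) hε q d
    refine ⟨min c₁ c₂, lt_min c1 c2, ?_⟩
    intro R K _ _ _ _ U I hU hI ψ β hψ hu
    classical
    have N0 : (0 : ℝ) < Fintype.card R := by exact_mod_cast Fintype.card_pos
    by_cases hc : ∀ i, (Fintype.card R : ℝ) ^ (ε / 2) * #(U.filter fun u => u - 1 ∈ I i) ≤ #U
    · have key := H₂ R K U I hU hI hc (fun l => ∏ i, ψ l i) β (fun l y hy => by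
        rw [AddChar.prod_apply]
        exact prod_eq_one fun i _ => hψ l i y (hy i)) (by
        obtain ⟨u, u1, u2⟩ := hu
        exact ⟨u, u1, by simpa only [AddChar.prod_apply] using u2⟩)
      refine (mul_le_mul_of_nonneg_right (min_le_right _ _) (Nat.cast_nonneg _)).trans
        (key.trans (mul_le_mul_of_nonneg_left ?_ (Real.rpow_nonneg N0.le _)))
      refine Nat.cast_le.2 (card_le_card fun v hv => ?_)
      obtain ⟨v1, v2⟩ := mem_filter.1 hv
      exact mem_filter.2 ⟨v1, by simpa only [AddChar.prod_apply] using v2⟩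
    · obtain ⟨i, hi⟩ := not_forall.1 hc
      have hi' := (not_le.1 hi).le
      obtain ⟨u, u1, u2⟩ := hu
      have one : (1 : R) - 1 ∈ I i := by
        rw [sub_self]
        exact (I i).zero_mem
      have key := H₁ R K (U.filter fun u => u - 1 ∈ I i) (fun j => I (i.succAbove j))
        (afnt3_grp hU (I i)) (fun j v hv => hI _ v (mem_filter.1 hv).1)
        (fun l j => (ψ l (i.succAbove j)).mulShift u) (fun l => β l * ψ l i u)
        (fun l j y hy => by
          rw [AddChar.mulShift_apply]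
          exact hψ l _ _ ((I _).mul_mem_left _ hy))
        ⟨1, mem_filter.2 ⟨hU.one, one⟩, by
          rw [afnt3_val ψ β hψ i u 1 one, mul_one]
          exact u2⟩
      have P0 : (0 : ℝ) ≤ (Fintype.card R : ℝ) ^ (ε / 2) := Real.rpow_nonneg N0.le _
      have sq : (Fintype.card R : ℝ) ^ ε =
          (Fintype.card R : ℝ) ^ (ε / 2) * (Fintype.card R : ℝ) ^ (ε / 2) := by
        rw [← Real.rpow_add N0, add_halves]
      refine (mul_le_mul_of_nonneg_right (min_le_left _ _) (Nat.cast_nonneg _)).trans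
        ((mul_le_mul_of_nonneg_left hi' c1.le).trans ?_)
      rw [sq, mul_left_comm, mul_assoc]
      refine mul_le_mul_of_nonneg_left (key.trans (mul_le_mul_of_nonneg_left ?_ P0)) P0
      refine Nat.cast_le.2 (card_le_card_of_injOn (fun k => u * k) ?_ ?_)
      · intro k hk
        obtain ⟨k1, k2⟩ := mem_filter.1 (mem_coe.1 hk)
        obtain ⟨k3, k4⟩ := mem_filter.1 k1
        refine mem_coe.2 (mem_filter.2 ⟨hU.mul u u1 k k3, ?_⟩)
        rw [← afnt3_val ψ β hψ i u k k4]
        exact k2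
      · intro k _ k' _ e
        exact (hU.unit u1).mul_left_cancel e

end Pool.Agent.Work.MP_11a08a_al.Af
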