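import Pool.Agent.Work.MP_11a08a_al.Af.Defs

/-!
The case in which all kernels are small: passage to the quotient by the intersection of the ideals.
-/

set_option autoImplicit false

open Finset Filter

namespace Pool.Agent.Work.MP_11a08a_al.Af

open Classical in
theorem afquo_fib {R S : Type} [CommRing R] [CommRing S] [DecidableEq S] (f : R →+* S)
    {U : Finset R} (hU : Grp U) (q : R → Prop) [DecidablePred q] (p : S → Prop) [DecidablePred p]
    (hq : ∀ u, q u ↔ p (f u)) :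
    #(U.filter q) = #(U.filter fun u => f u = 1) * #((U.image f).filter p) := by
  rw [card_eq_sum_card_fiberwise (f := f) (s := U.filter q) (t := (U.image f).filter p)
    fun u hu => by
      obtain ⟨h1, h2⟩ := mem_filter.1 (mem_coe.1 hu)
      exact mem_coe.2 (mem_filter.2 ⟨mem_image_of_mem f h1, (hq u).1 h2⟩), mul_comm,
    ← smul_eq_mul, ← sum_const]
  refine sum_congr rfl fun x hx => ?_
  obtain ⟨h1, h2⟩ := mem_filter.1 hx
  obtain ⟨v, hv, rfl⟩ := mem_image.1 h1
  obtain ⟨w, hw, hvw⟩ := hU.inv v hv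
  refine card_nbij' (fun u => w * u) (fun u => v * u) (fun u hu => ?_) (fun u hu => ?_)
    (fun u _ => ?_) fun u _ => ?_
  · obtain ⟨h3, h4⟩ := mem_filter.1 (mem_coe.1 hu)
    refine mem_coe.2 (mem_filter.2 ⟨hU.mul _ hw _ (mem_filter.1 h3).1, ?_⟩)
    rw [map_mul, h4, ← map_mul, mul_comm, hvw, map_one]
  · obtain ⟨h3, h4⟩ := mem_filter.1 (mem_coe.1 hu)
    have h5 : f (v * u) = f v := by rw [map_mul, h4, mul_one]
    exact mem_coe.2 (mem_filter.2 ⟨mem_filter.2 ⟨hU.mul _ hv _ h3, (hq _).2 (h5 ▸ h2)⟩, h5⟩)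
  · change v * (w * u) = u
    rw [← mul_assoc, hvw, one_mul]
  · change w * (v * u) = u
    rw [← mul_assoc, mul_comm w, hvw, one_mul]

theorem afquo_lift {R K : Type} [CommRing R] [Field K] (J : Ideal R) (s : AddChar R K)
    (hs : ∀ y ∈ J, s y = 1) : ∃ s' : AddChar (R ⧸ J) K, ∀ x, s' (Ideal.Quotient.mk J x) = s x :=
  ⟨{ toFun := fun t => Quotient.liftOn' t s fun a b hab => by
        have h1 : a - b ∈ J := (Submodule.quotientRel_def _).1 hab
        rw [← sub_add_cancel a b, s.map_add_eq_mul, hs _ h1, one_mul]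
     map_zero_eq_one' := s.map_zero_eq_one
     map_add_eq_mul' := fun a b => by
        obtain ⟨a, rfl⟩ := Ideal.Quotient.mk_surjective a
        obtain ⟨b, rfl⟩ := Ideal.Quotient.mk_surjective b
        exact s.map_add_eq_mul a b }, fun _ => rfl⟩

theorem afquo_unit {R : Type} [CommRing R] {n : ℕ} (I : Fin n → Ideal R) (a : R)
    (h : ∀ i, ∃ y, 1 - a * y ∈ I i) : IsUnit (Ideal.Quotient.mk (⨅ i, I i) a) := by
  choose y hy using h
  have h1 : ∏ i, (1 - a * y i) ∈ ⨅ i, I i := Ideal.mem_iInf.2 fun i =>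
    Ideal.prod_mem _ (mem_univ i) (hy i)
  have h2 : ∀ s : Finset (Fin n), ∃ z, ∏ i ∈ s, (1 - a * y i) = 1 - a * z := fun s => by
    induction s using Finset.induction_on with
    | empty => exact ⟨0, by simp⟩
    | insert i s hi ih =>
      obtain ⟨z, hz⟩ := ih
      exact ⟨z + y i - a * y i * z, by rw [prod_insert hi, hz]; ring⟩
  obtain ⟨z, hz⟩ := h2 univ
  rw [hz] at h1
  refine IsUnit.of_mul_eq_one (Ideal.Quotient.mk _ z) ?_
  rw [← map_mul, ← map_one (Ideal.Quotient.mk (⨅ i, I i)), eq_comm, Ideal.Quotient.eq]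
  exact h1

theorem quo (h : StmtNT) : StmtQuo := by
  intro η ε hη hε q d
  obtain ⟨c₁, hc₁, H⟩ := h (η / 2) ε (half_pos hη) hε q
  have hd : (0 : ℝ) < d + 1 := by positivity
  have hB : (0 : ℝ) < (d + 1 : ℝ) ^ (2 / η) := Real.rpow_pos_of_pos hd _
  refine ⟨min c₁ (1 / (d + 1 : ℝ) ^ (2 / η)), lt_min hc₁ (by positivity), ?_⟩
  intro R K _ _ _ _ U I hU hP hK ψ β hψ ⟨u₀, hu₀, hne⟩
  classical
  have hN1 : (1 : ℝ) ≤ Fintype.card R := by exact_mod_cast Fintype.card_pos
  have hN0 : (0 : ℝ) < Fintype.card R := by linarith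
  by_cases hN : (Fintype.card R : ℝ) ^ (η / 2) < d + 1
  · have h1 : (Fintype.card R : ℝ) ≤ (d + 1 : ℝ) ^ (2 / η) := by
      have h2 := Real.rpow_le_rpow (by positivity) hN.le (show 0 ≤ 2 / η by positivity)
      rwa [← Real.rpow_mul hN0.le, show η / 2 * (2 / η) = 1 by field_simp, Real.rpow_one] at h2
    have h2 : (#U : ℝ) ≤ Fintype.card R := by exact_mod_cast card_le_univ U
    have h3 : min c₁ (1 / (d + 1 : ℝ) ^ (2 / η)) * #U ≤ 1 := by
      refine (mul_le_mul (min_le_right _ _) (h2.trans h1) (Nat.cast_nonneg _)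
        (by positivity)).trans ?_
      rw [one_div, inv_mul_cancel₀ hB.ne']
    refine h3.trans (one_le_mul_of_one_le_of_one_le (Real.one_le_rpow hN1 hε.le) ?_)
    exact_mod_cast card_pos.2 ⟨u₀, mem_filter.2 ⟨hu₀, hne⟩⟩
  push Not at hN
  have : Finite (R ⧸ ⨅ i, I i) := Finite.of_surjective _ Ideal.Quotient.mk_surjective
  let _ : Fintype (R ⧸ ⨅ i, I i) := Fintype.ofFinite _
  have hcard : (Fintype.card (R ⧸ ⨅ i, I i) : ℝ) ≤ Fintype.card R := by
    exact_mod_cast Fintype.card_le_of_surjective _ Ideal.Quotient.mk_surjective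
  set f := Ideal.Quotient.mk (⨅ i, I i) with hf
  obtain ⟨φ, hφ⟩ : ∃ φ : ℕ, φ = #(U.filter fun u => f u = 1) := ⟨_, rfl⟩
  have hφ0 : (0 : ℝ) < φ := by
    rw [hφ]
    exact_mod_cast card_pos.2 ⟨1, mem_filter.2 ⟨hU.one, map_one f⟩⟩
  have fib : ∀ (q : R → Prop) [DecidablePred q] (p : (R ⧸ ⨅ i, I i) → Prop) {_ : DecidablePred p},
      (∀ u, q u ↔ p (f u)) → (#(U.filter q) : ℝ) = φ * #((U.image f).filter p) :=
    fun q _ p _ hq => by
      rw [afquo_fib f hU q p hq, hφ]
      push_cast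
      congr
  have hall : (#U : ℝ) = φ * #(U.image f) := by
    have := @fib (fun _ => True) _ (fun _ => True) (fun _ => inferInstance) fun _ => Iff.rfl
    rwa [filter_true, filter_true] at this
  have hη0 : (0 : ℝ) < (Fintype.card R : ℝ) ^ η := Real.rpow_pos_of_pos hN0 _
  have hAF : AF (U.image f) ((Fintype.card R : ℝ) ^ η / (d + 1)) := by
    refine ⟨⟨mem_image.2 ⟨1, hU.one, map_one f⟩, fun x hx y hy => ?_, fun x hx => ?_⟩, ?_, ?_⟩
    · obtain ⟨u, hu, rfl⟩ := mem_image.1 hx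
      obtain ⟨v, hv, rfl⟩ := mem_image.1 hy
      exact mem_image.2 ⟨u * v, hU.mul _ hu _ hv, map_mul f u v⟩
    · obtain ⟨u, hu, rfl⟩ := mem_image.1 hx
      obtain ⟨v, hv, e⟩ := hU.inv u hu
      exact ⟨f v, mem_image_of_mem f hv, by rw [← map_mul, e, map_one]⟩
    · have h1 : (φ : ℝ) ≤ #(U.filter fun u => u - 1 ∈ I 0) := by
        rw [hφ]
        refine Nat.cast_le.2 (card_le_card fun u hu => ?_)
        obtain ⟨h2, h3⟩ := mem_filter.1 hu
        refine mem_filter.2 ⟨h2, Ideal.mem_iInf.1 (Ideal.Quotient.eq.1 ?_) 0⟩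
        rw [map_one]
        exact h3
      have h2 := (mul_le_mul_of_nonneg_left h1 hη0.le).trans (hK 0)
      rw [hall, mul_comm] at h2
      refine (div_le_self hη0.le ?_).trans (le_of_mul_le_mul_left h2 hφ0)
      have : (0 : ℝ) ≤ d := Nat.cast_nonneg _
      linarith
    · refine le_of_mul_le_mul_left ?_ hφ0
      rw [← hall, mul_left_comm,
        ← fib (fun u => ¬ IsUnit (f u - 1)) _ fun _ => Iff.rfl]
      have h1 : (#(U.filter fun u => ¬ IsUnit (f u - 1)) : ℝ) ≤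
          ∑ i, (#(U.filter fun u => u - 1 ∈ I i) : ℝ) := by
        rw [← Nat.cast_sum]
        refine Nat.cast_le.2 ((card_le_card fun u hu => ?_).trans card_biUnion_le)
        obtain ⟨h2, h3⟩ := mem_filter.1 hu
        by_contra h4
        refine h3 ?_
        rw [← map_one f, ← map_sub]
        exact afquo_unit I _ fun i => (hP i u h2).resolve_left fun h5 =>
          h4 (mem_biUnion.2 ⟨i, mem_univ i, mem_filter.2 ⟨h2, h5⟩⟩)
      have h2 : (Fintype.card R : ℝ) ^ η * ∑ i, (#(U.filter fun u => u - 1 ∈ I i) : ℝ) ≤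
          (d + 1) * #U := by
        rw [mul_sum]
        refine (sum_le_sum fun i _ => hK i).trans_eq ?_
        simp
      rw [div_mul_eq_mul_div, div_le_iff₀ hd, mul_comm (#U : ℝ)]
      exact (mul_le_mul_of_nonneg_left h1 hη0.le).trans h2
  have hmono : (Fintype.card (R ⧸ ⨅ i, I i) : ℝ) ^ (η / 2) ≤
      (Fintype.card R : ℝ) ^ η / (d + 1) := by
    refine (Real.rpow_le_rpow (Nat.cast_nonneg _) hcard (half_pos hη).le).trans ?_
    rw [le_div_iff₀ hd]
    refine (mul_le_mul_of_nonneg_left hN (by positivity)).trans_eq ?_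
    rw [← Real.rpow_add hN0, add_halves]
  choose ψ' hψ' using fun l => afquo_lift (⨅ i, I i) (ψ l) fun y hy => hψ l y (Ideal.mem_iInf.1 hy)
  have h1 := H (R ⧸ ⨅ i, I i) K (U.image f) (hAF.mono hmono) ψ' β
    ⟨f u₀, mem_image_of_mem f hu₀, by simpa only [hf, hψ'] using hne⟩
  have h2 := mul_le_mul_of_nonneg_left h1 hφ0.le
  rw [mul_left_comm, ← hall, mul_left_comm,
    ← fib (fun u => ∑ l, β l * ψ l u ≠ 0) _ fun u => by simp only [hf, hψ']] at h2
  refine ((mul_le_mul_of_nonneg_right (min_le_left _ _) (Nat.cast_nonneg _)).trans h2).trans ?_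
  exact mul_le_mul_of_nonneg_right (Real.rpow_le_rpow (Nat.cast_nonneg _) hcard hε.le)
    (Nat.cast_nonneg _)

end Pool.Agent.Work.MP_11a08a_al.Af
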