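import Pool.Agent.Work.MP_11a08a_al.Af.Defs

/-!
The sum-product estimate with denominators from a subset.
-/

set_option autoImplicit false

open Finset Filter
open scoped Pointwise

namespace Pool.Agent.Work.MP_11a08a_al.Af

open Pool.Agent.Work.MP_11a08a_al.Fr (op)

/-- The exponents. -/
def afsp_e : ℕ → ℕ
  | 0 => 2
  | j + 1 => 40 + 16 * afsp_e j

theorem afsp_sub {R : Type} [CommRing R] [DecidableEq R] {S : Finset R} (h0 : (0 : R) ∈ S)
    (h1 : (1 : R) ∈ S) : S ⊆ op S := fun s hs => by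
  have := sub_mem_sub (mul_mem_mul hs h1) (mul_mem_mul h0 h0)
  rwa [mul_one, mul_zero, sub_zero] at this

theorem afsp_01 {R : Type} [CommRing R] [DecidableEq R] {S : Finset R} (h0 : (0 : R) ∈ S)
    (h1 : (1 : R) ∈ S) (j : ℕ) : (0 : R) ∈ op^[j] S ∧ (1 : R) ∈ op^[j] S := by
  induction j with
  | zero => exact ⟨h0, h1⟩
  | succ j ih =>
    rw [Function.iterate_succ_apply']
    exact ⟨afsp_sub ih.1 ih.2 ih.1, afsp_sub ih.1 ih.2 ih.2⟩

theorem afsp_mono {R : Type} [CommRing R] [DecidableEq R] {S : Finset R} (h0 : (0 : R) ∈ S)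
    (h1 : (1 : R) ∈ S) {i j : ℕ} (h : i ≤ j) : op^[i] S ⊆ op^[j] S := by
  induction j, h using Nat.le_induction with
  | base => exact Subset.refl _
  | succ j _ ih =>
    rw [Function.iterate_succ_apply']
    exact ih.trans (afsp_sub (afsp_01 h0 h1 j).1 (afsp_01 h0 h1 j).2)

theorem afsp_iter (h1 : Fr.StmtSP3) {R M : Type} [CommRing R] [DecidableEq R] [AddCommGroup M]
    [Module R M] [DecidableEq M] {A : Finset M} {S : Finset R} {W : ℝ} (hA : A.Nonempty)
    (hW : 1 ≤ W) (hD : (#(A - A) : ℝ) ≤ W * #A)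
    (hS : ∀ x ∈ S, (#(A + x • A) : ℝ) ≤ W ^ 2 * #A) (j : ℕ) :
    ∀ x ∈ op^[j] S, (#(A + x • A) : ℝ) ≤ W ^ afsp_e j * #A := by
  induction j with
  | zero => exact hS
  | succ j ih =>
    rw [Function.iterate_succ_apply']
    intro x hx
    obtain ⟨p, hp, q, hq, rfl⟩ := mem_sub.1 hx
    have hX : 1 ≤ W ^ afsp_e j := one_le_pow₀ hW
    have hm : ∀ p ∈ op^[j] S * op^[j] S, (#(A + p • A) : ℝ) ≤ W ^ (8 + 4 * afsp_e j) * #A := by
      intro p hp
      obtain ⟨a, ha, b, hb, rfl⟩ := mem_mul.1 hp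
      refine (h1 R M A W _ _ a b hA hW hX hX hD (ih a ha) (ih b hb)).1.trans (le_of_eq ?_)
      ring
    have hY : 1 ≤ W ^ (8 + 4 * afsp_e j) := one_le_pow₀ hW
    refine (h1 R M A W _ _ p q hA hW hY hY hD (hm p hp) (hm q hq)).2.trans (le_of_eq ?_)
    rw [afsp_e]
    ring

theorem afsp_pig {R : Type} [CommRing R] [Fintype R] [DecidableEq R] {S : Finset R} {μ : ℝ} {J : ℕ}
    (hμ : 1 ≤ μ) (hS : (1 : ℝ) < #S) (hR : (Fintype.card R : ℝ) ≤ μ ^ J) :
    ∃ i < J, (#(op (op (op (op^[3 * i] S)))) : ℝ) ≤ μ * #(op^[3 * i] S) := by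
  by_contra hc
  have μ0 : 0 < μ := by linarith only [hμ]
  have key : ∀ i ≤ J, μ ^ i * #S ≤ #(op^[3 * i] S) := by
    intro i
    induction i with
    | zero =>
      intro _
      simp
    | succ i ih =>
      intro hi
      have a1 := ih (Nat.le_of_succ_le hi)
      have a2 : μ * #(op^[3 * i] S) < #(op (op (op (op^[3 * i] S)))) :=
        lt_of_not_ge fun h => hc ⟨i, hi, h⟩
      have a3 : op^[3 * (i + 1)] S = op (op (op (op^[3 * i] S))) := by
        rw [show 3 * (i + 1) = 3 * i + 1 + 1 + 1 by ring, Function.iterate_succ_apply',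
          Function.iterate_succ_apply', Function.iterate_succ_apply']
      rw [a3, pow_succ]
      have a4 := mul_le_mul_of_nonneg_left a1 μ0.le
      linarith only [a2, a4]
  have b1 := key J le_rfl
  have b2 : (#(op^[3 * J] S) : ℝ) ≤ Fintype.card R := by exact_mod_cast card_le_univ _
  have b3 := mul_lt_mul_of_pos_left hS (pow_pos μ0 J)
  linarith only [b1, b2, b3, hR]

theorem sp (h1 : Fr.StmtSP3) (h2 : StmtGrow) (h3 : Fr.StmtEn) : StmtSP := by
  intro J
  refine ⟨afsp_e (3 * J + 1), ?_⟩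
  intro R M _ _ _ _ _ _ A B B₂ W μ ρ hA hW hμ hρ hD hB hB2 hu hQ hμB hR hP
  have A0 : (0 : ℝ) < #A := by exact_mod_cast hA.card_pos
  have W2 : W ≤ W ^ 2 := by nlinarith only [hW]
  obtain ⟨S, hS⟩ : ∃ S : Finset R, S = insert 0 (insert 1 B) := ⟨_, rfl⟩
  have s0 : (0 : R) ∈ S := hS ▸ mem_insert_self _ _
  have s1 : (1 : R) ∈ S := hS ▸ mem_insert_of_mem (mem_insert_self _ _)
  have sB : B ⊆ S := fun b hb => hS ▸ mem_insert_of_mem (mem_insert_of_mem hb)
  have base : ∀ x ∈ S, (#(A + x • A) : ℝ) ≤ W ^ 2 * #A := by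
    intro x hx
    rw [hS, mem_insert, mem_insert] at hx
    rcases hx with rfl | rfl | hx
    · have e : A + (0 : R) • A ⊆ A := by
        intro y hy
        obtain ⟨a, ha, b, hb, rfl⟩ := mem_add.1 hy
        obtain ⟨c, -, rfl⟩ := mem_smul_finset.1 hb
        rwa [zero_smul, add_zero]
      have e1 : (#(A + (0 : R) • A) : ℝ) ≤ #A := by exact_mod_cast card_le_card e
      have e2 := mul_le_mul_of_nonneg_right (hW.trans W2) A0.le
      linarith only [e1, e2]
    · rw [one_smul]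
      have e : (#(A + A) : ℝ) * #A ≤ #(A - A) * #(A - A) := by
        exact_mod_cast ruzsa_triangle_inequality_add_sub_sub A A A
      have e1 := mul_le_mul hD hD (Nat.cast_nonneg _) (by positivity)
      refine le_of_mul_le_mul_left ?_ A0
      linarith only [e, e1]
    · exact (hB x hx).trans (mul_le_mul_of_nonneg_right W2 A0.le)
  have o0 : (0 : R) ∈ op S := afsp_sub s0 s1 s0
  have o1 : (1 : R) ∈ op S := afsp_sub s0 s1 s1
  have oB : B₂ ⊆ op S := (hB2.trans sB).trans (afsp_sub s0 s1)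
  have oP : ∀ b ∈ B, ∀ b' ∈ B₂, b * b' ∈ op S := by
    intro b hb b' hb'
    have := sub_mem_sub (mul_mem_mul (sB hb) (sB (hB2 hb'))) (mul_mem_mul s0 s0)
    rwa [mul_zero, sub_zero] at this
  have cB : (#B₂ : ℝ) ≤ #(op S) := by exact_mod_cast card_le_card oB
  obtain ⟨i, hi, hg⟩ := afsp_pig (S := op S) hμ (by linarith only [cB, hμB, hμ]) hR
  obtain ⟨t0, t1⟩ := afsp_01 o0 o1 (3 * i)
  have m0 : op S ⊆ op^[3 * i] (op S) := afsp_mono o0 o1 (Nat.zero_le _)
  obtain ⟨Q, q1, q2⟩ := h2 R B B₂ (op^[3 * i] (op S)) μ (oB.trans m0)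
    (fun b hb b' hb' => m0 (oP b hb b' hb')) t0 t1 hu hμB hg
  obtain rfl := hQ Q q1
  have cT : Nat.card (⊤ : Subring R) = Fintype.card R := by
    rw [← Nat.card_eq_fintype_card]
    exact Nat.card_congr Subring.topEquiv.toEquiv
  rw [cT] at q2
  obtain ⟨x, hx, hE⟩ := h3 R M A (op^[3 * i] (op S)) ρ hA ⟨_, t0⟩ hρ hP
  have hx1 : x ∈ op^[3 * J + 1] S := by
    rw [Function.iterate_succ_apply]
    exact afsp_mono o0 o1 (by omega) hx
  have hx' := afsp_iter h1 hA hW hD base (3 * J + 1) x hx1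
  have T0 : (0 : ℝ) < #(op^[3 * i] (op S)) := by exact_mod_cast card_pos.2 ⟨_, t0⟩
  have r0 : 0 ≤ 1 + ρ * #A := by positivity
  have c1 := mul_le_mul (mul_le_mul_of_nonneg_right q2 r0) hx' (Nat.cast_nonneg _) (by positivity)
  refine le_of_mul_le_mul_left ?_ (mul_pos A0 T0)
  linarith only [hE, c1]

end Pool.Agent.Work.MP_11a08a_al.Af
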