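import Pool.Agent.Work.MP_11a08a_al.Af.Defs

/-!
Large subsets with unit differences.
-/

set_option autoImplicit false

open Finset

namespace Pool.Agent.Work.MP_11a08a_al.Af

open Classical in
theorem afsel_one {R : Type} [CommRing R] {U : Finset R} {P : ℝ} (h : AF U P) {v : R}
    (hv : v ∈ U) : P * #(U.filter fun u => ¬ IsUnit (u - v)) ≤ #U := by
  rcases le_total P 0 with hP | hP
  · exact (mul_nonpos_of_nonpos_of_nonneg hP (Nat.cast_nonneg _)).trans (Nat.cast_nonneg _)
  obtain ⟨w, hw, e⟩ := h.grp.inv v hv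
  refine le_trans (mul_le_mul_of_nonneg_left ?_ hP) h.few
  refine Nat.cast_le.2 (card_le_card_of_injOn (fun u => w * u) (fun u hu => ?_)
    fun a _ b _ hab => (h.grp.unit hw).mul_left_cancel hab)
  obtain ⟨h1, h2⟩ := mem_filter.1 (mem_coe.1 hu)
  refine mem_coe.2 (mem_filter.2 ⟨h.grp.mul w hw u h1, fun h3 => h2 ?_⟩)
  have e2 : w * u - 1 = w * (u - v) := by linear_combination e
  rw [e2] at h3
  exact isUnit_of_mul_isUnit_right h3

theorem sel : StmtSel := by
  classical
  intro R _ U P h
  refine ⟨fun v hv => afsel_one h hv, fun B hB => ?_⟩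
  rcases subsingleton_or_nontrivial R with hR | hR
  · exact ⟨B, Subset.refl _, fun _ _ _ _ _ => isUnit_of_subsingleton _,
      mul_le_mul_of_nonneg_right h.le (Nat.cast_nonneg _)⟩
  obtain ⟨C, hC, hmax⟩ := exists_max_image
    (B.powerset.filter fun C => ∀ b ∈ C, ∀ b' ∈ C, b ≠ b' → IsUnit (b - b')) card
    ⟨∅, mem_filter.2 ⟨empty_mem_powerset _, fun b hb => absurd hb (notMem_empty b)⟩⟩
  obtain ⟨hC1, hC2⟩ := mem_filter.1 hC
  have hCB := mem_powerset.1 hC1
  refine ⟨C, hCB, hC2, ?_⟩
  rcases le_total P 0 with hP | hP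
  · exact (mul_nonpos_of_nonpos_of_nonneg hP (Nat.cast_nonneg _)).trans (by positivity)
  have hsub : B ⊆ C.biUnion fun v => U.filter fun u => ¬ IsUnit (u - v) := by
    intro b hb
    by_contra hn
    have hall : ∀ c ∈ C, IsUnit (b - c) := fun c hc => by
      by_contra hu
      exact hn (mem_biUnion.2 ⟨c, hc, mem_filter.2 ⟨hB hb, hu⟩⟩)
    have hbC : b ∉ C := fun hc => by
      have := hall b hc
      rw [sub_self] at this
      exact not_isUnit_zero this
    have hin := hmax (insert b C) (mem_filter.2 ⟨mem_powerset.2 (insert_subset hb hCB), by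
      intro x hx y hy hxy
      rcases mem_insert.1 hx with rfl | hx' <;> rcases mem_insert.1 hy with rfl | hy'
      · exact absurd rfl hxy
      · exact hall y hy'
      · rw [← neg_sub]
        exact (hall x hx').neg
      · exact hC2 x hx' y hy' hxy⟩)
    rw [card_insert_of_notMem hbC] at hin
    omega
  have h1 : (#B : ℝ) ≤ ∑ v ∈ C, (#(U.filter fun u => ¬ IsUnit (u - v)) : ℝ) := by
    exact_mod_cast (card_le_card hsub).trans card_biUnion_le
  refine (mul_le_mul_of_nonneg_left h1 hP).trans ?_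
  rw [mul_sum]
  refine (sum_le_sum fun v hv => afsel_one h (hB (hCB hv))).trans ?_
  rw [sum_const, nsmul_eq_mul, mul_comm]

end Pool.Agent.Work.MP_11a08a_al.Af
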