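import Pool.Agent.Work.MP_11a08a_al.Af.Defs

/-!
Independent shifts, almost free version.
-/

set_option autoImplicit false

open Finset

namespace Pool.Agent.Work.MP_11a08a_al.Af

open Classical in
theorem afshift_one {R M : Type} [CommRing R] [DecidableEq R] [AddCommGroup M] [Module R M]
    [DecidableEq M] {U : Finset R} {P : ℝ} {s : ℕ} (h : Grp U)
    (hP : ∀ v ∈ U, P * #(U.filter fun u => ¬ IsUnit (u - v)) ≤ #U) (c : Fin s → M) (hc : c ≠ 0) :
    (#((Fintype.piFinset fun _ : Fin s => U).filter fun w => ∑ i, w i • c i = 0) : ℝ) * P ≤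
      (#U : ℝ) ^ s := by
  rcases le_total P 0 with hP0 | hP0
  · exact (mul_nonpos_of_nonneg_of_nonpos (Nat.cast_nonneg _) hP0).trans (by positivity)
  obtain ⟨i1, hi⟩ := Function.ne_iff.1 hc
  have hU : (0 : ℝ) < #U := by exact_mod_cast card_pos.2 ⟨1, h.one⟩
  have e : #(Fintype.piFinset fun _ : Fin s => U) = #U ^ s := by
    rw [Fintype.card_piFinset, prod_const, card_univ, Fintype.card_fin]
  generalize hT : ((Fintype.piFinset fun _ : Fin s => U).filter
    fun w => ∑ i, w i • c i = 0) = T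
  have hT' : ∀ w ∈ T, (∀ j, w j ∈ U) ∧ ∑ i, w i • c i = 0 := fun w hw => by
    rw [← hT, mem_filter, Fintype.mem_piFinset] at hw
    exact hw
  have hm : Set.MapsTo (fun p : (Fin s → R) × R => Function.update p.1 i1 p.2)
      (T ×ˢ U : Finset _) (Fintype.piFinset fun _ : Fin s => U) := by
    rintro ⟨w, u⟩ hp
    rw [mem_coe, mem_product] at hp
    rw [mem_coe, Fintype.mem_piFinset]
    intro j
    by_cases hj : j = i1
    · subst hj
      simpa using hp.2
    · simpa [hj] using (hT' _ hp.1).1 j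
  have hf : ∀ b : Fin s → R,
      P * #((T ×ˢ U).filter fun p => Function.update p.1 i1 p.2 = b) ≤ #U := by
    intro b
    rcases ((T ×ˢ U).filter fun p => Function.update p.1 i1 p.2 = b).eq_empty_or_nonempty with
      h0 | ⟨⟨w', u'⟩, hp'⟩
    · rw [h0]
      simp
    rw [mem_filter, mem_product] at hp'
    refine le_trans (mul_le_mul_of_nonneg_left (Nat.cast_le.2 ?_) hP0)
      (hP (w' i1) ((hT' _ hp'.1.1).1 i1))
    refine card_le_card_of_injOn (fun p => p.1 i1) ?_ ?_
    · rintro ⟨w, u⟩ hp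
      rw [mem_coe, mem_filter, mem_product] at hp
      rw [mem_coe, mem_filter]
      refine ⟨(hT' _ hp.1.1).1 i1, fun hu => hi ?_⟩
      have hh := hp.2.trans hp'.2.symm
      have h2 : ∀ j, j ≠ i1 → w j = w' j := fun j hj => by simpa [hj] using congrFun hh j
      have h4 : ∑ i, (w i - w' i) • c i = 0 := by
        simp only [sub_smul, sum_sub_distrib]
        rw [(hT' _ hp.1.1).2, (hT' _ hp'.1.1).2, sub_zero]
      rw [sum_eq_single i1 (fun j _ hj => by rw [h2 j hj, sub_self, zero_smul])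
        (fun hh => absurd (mem_univ _) hh)] at h4
      exact hu.smul_eq_zero.1 h4
    · rintro ⟨w, u⟩ hp ⟨w₂, u₂⟩ hp₂ h5
      rw [mem_coe, mem_filter] at hp hp₂
      have hh := hp.2.trans hp₂.2.symm
      have h1 : u = u₂ := by simpa using congrFun hh i1
      have h2 : ∀ j, j ≠ i1 → w j = w₂ j := fun j hj => by simpa [hj] using congrFun hh j
      refine Prod.ext (funext fun j => ?_) h1
      by_cases hj : j = i1
      · rw [hj]
        exact h5
      · exact h2 j hj
  have h1 := card_eq_sum_card_fiberwise hm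
  rw [card_product] at h1
  have h2 : P * ((#T : ℝ) * #U) ≤ (#U : ℝ) ^ s * #U := by
    rw [← Nat.cast_mul, h1, Nat.cast_sum, mul_sum]
    refine (sum_le_card_nsmul _ _ (#U : ℝ) fun b _ => hf b).trans (le_of_eq ?_)
    rw [e, nsmul_eq_mul, Nat.cast_pow]
  exact le_of_mul_le_mul_right (by linarith) hU

theorem afshift_miss {R : Type} [CommRing R] [DecidableEq R] {U S : Finset R} (h : Grp U)
    (hS : S ⊆ U) {u : R} (hu : u ∈ U) : #(U.filter fun x => x * u ∉ S) + #S ≤ #U := by
  obtain ⟨v, hv, e⟩ := h.inv u hu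
  have h1 : #S ≤ #(U.filter fun x => x * u ∈ S) := by
    refine card_le_card_of_injOn (fun x => x * v) (fun x hx => ?_) fun x _ y _ hh => ?_
    · rw [mem_coe, mem_filter]
      refine ⟨h.mul _ (hS hx) _ hv, ?_⟩
      rw [mul_assoc, mul_comm v, e, mul_one]
      exact hx
    · have h2 : x * v * u = y * v * u := congrArg (· * u) hh
      rwa [mul_assoc, mul_assoc, mul_comm v, e, mul_one, mul_one] at h2
  have h2 := card_filter_add_card_filter_not (s := U) (fun x => x * u ∈ S)
  omega

theorem shift (hsel : StmtSel) : StmtShift := by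
  intro R M _ _ _ _ _ U P s hA
  have h := hA.grp
  refine ⟨afshift_one h (hsel R U P hA).1, fun S σ hS hσ => ?_⟩
  have hU : (0 : ℝ) < #U := by exact_mod_cast card_pos.2 ⟨1, h.one⟩
  have hSU : (#S : ℝ) ≤ #U := by exact_mod_cast card_le_card hS
  have hσ1 : 0 ≤ 1 - σ := by
    by_contra hh
    nlinarith
  have tot : ∑ w ∈ Fintype.piFinset fun _ : Fin s => U,
      (#(U.filter fun u => ∀ i, w i * u ∉ S) : ℝ) ≤ ((1 - σ) ^ s * #U) * (#U : ℝ) ^ s := by
    have e : ∑ w ∈ Fintype.piFinset fun _ : Fin s => U, #(U.filter fun u => ∀ i, w i * u ∉ S) =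
        ∑ u ∈ U, #((Fintype.piFinset fun _ : Fin s => U).filter fun w => ∀ i, w i * u ∉ S) := by
      simp only [card_filter]
      exact sum_comm
    rw [← Nat.cast_sum, e, Nat.cast_sum]
    refine (sum_le_card_nsmul U _ (((1 - σ) * #U) ^ s) fun u hu => ?_).trans (le_of_eq ?_)
    · have e2 : ((Fintype.piFinset fun _ : Fin s => U).filter fun w => ∀ i, w i * u ∉ S) =
          Fintype.piFinset fun _ : Fin s => U.filter fun x => x * u ∉ S := by
        ext w
        simp only [mem_filter, Fintype.mem_piFinset, forall_and]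
      rw [e2, Fintype.card_piFinset, prod_const, card_univ, Fintype.card_fin, Nat.cast_pow]
      refine pow_le_pow_left₀ (Nat.cast_nonneg _) ?_ s
      have h1 : (#(U.filter fun x => x * u ∉ S) : ℝ) + #S ≤ #U := by
        exact_mod_cast afshift_miss h hS hu
      linarith
    · rw [nsmul_eq_mul, mul_pow]
      ring
  generalize hB : ((Fintype.piFinset fun _ : Fin s => U).filter fun w =>
    2 * (1 - σ) ^ s * #U < (#(U.filter fun u => ∀ i, w i * u ∉ S) : ℝ)) = B
  rcases B.eq_empty_or_nonempty with rfl | hne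
  · simp
  have h1 : ∑ _w ∈ B, 2 * (1 - σ) ^ s * (#U : ℝ) <
      ∑ w ∈ B, (#(U.filter fun u => ∀ i, w i * u ∉ S) : ℝ) :=
    sum_lt_sum_of_nonempty hne fun w hw => by
      rw [← hB, mem_filter] at hw
      exact hw.2
  have h2 : ∑ w ∈ B, (#(U.filter fun u => ∀ i, w i * u ∉ S) : ℝ) ≤
      ∑ w ∈ Fintype.piFinset fun _ : Fin s => U, (#(U.filter fun u => ∀ i, w i * u ∉ S) : ℝ) :=
    sum_le_sum_of_subset_of_nonneg (by rw [← hB]; exact filter_subset _ _)
      fun _ _ _ => Nat.cast_nonneg _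
  rw [sum_const, nsmul_eq_mul] at h1
  have h3 : ((1 - σ) ^ s * #U) * ((#B : ℝ) * 2) < ((1 - σ) ^ s * #U) * (#U : ℝ) ^ s := by
    linarith
  have h4 := lt_of_mul_lt_mul_left h3 (by positivity)
  exact_mod_cast h4.le

end Pool.Agent.Work.MP_11a08a_al.Af
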