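import Pool.Agent.Work.MP_11a08a_al.Af.Defs

/-! Local Parseval, invariance and statistical closure of the large spectrum. -/

set_option autoImplicit false

open Finset

namespace Pool.Agent.Work.MP_11a08a_al.Af

open Pool.Agent.Work.MP_11a08a_al.Fr (Faith phi spec)

section

variable {R M : Type} [CommRing R] [AddCommGroup M] [Module R M] [Fintype M] (θ : AddChar M ℂ)

lemma afspec_e_mul_conj (x y : M) : θ x * (starRingEnd ℂ) (θ y) = θ (x - y) := by
  rw [← AddChar.map_neg_eq_conj, ← AddChar.map_add_eq_mul, sub_eq_add_neg]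

lemma afspec_norm_le (U : Finset R) (t : M) : ‖phi θ U t‖ ≤ #U := by
  unfold phi
  refine (norm_sum_le _ _).trans ?_
  simp only [AddChar.norm_apply, sum_const, nsmul_eq_mul, mul_one, le_refl]

lemma afspec_sq (z : ℂ) : ((‖z‖ ^ 2 : ℝ) : ℂ) = z * (starRingEnd ℂ) z := by
  rw [Complex.mul_conj, Complex.normSq_eq_norm_sq]

omit [Fintype M] in
lemma afspec_orth [Fintype R] (hθ : Faith R θ) {m : M} (hm : m ≠ 0) :
    ∑ x : R, θ (x • m) = 0 := by
  obtain ⟨x, hx⟩ := hθ m hm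
  have h : θ.compAddMonoidHom ((smulAddHom R M).flip m) ≠ 0 := fun h =>
    hx (by simpa using DFunLike.congr_fun h x)
  simpa using AddChar.sum_eq_zero_iff_ne_zero.2 h

lemma afspec_parseval [Fintype R] (U : Finset R) (hθ : Faith R θ) (t : M) {m : M}
    (hm : m ≠ 0) (D : ∀ v : R, DecidablePred fun u => ¬ IsUnit (u - v)) : ∑ x : R, ‖phi θ U (t + x • m)‖ ^ 2 ≤
      (Fintype.card R : ℝ) * ∑ v ∈ U, (#(U.filter fun u => ¬ IsUnit (u - v)) : ℝ) := by
  have h : ((∑ x : R, ‖phi θ U (t + x • m)‖ ^ 2 : ℝ) : ℂ) =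
      ∑ v ∈ U, ∑ u ∈ U, θ ((u - v) • t) * ∑ x : R, θ (x • (u - v) • m) := by
    rw [Complex.ofReal_sum]
    have h1 : ∀ x : R, ((‖phi θ U (t + x • m)‖ ^ 2 : ℝ) : ℂ) =
        ∑ v ∈ U, ∑ u ∈ U, θ ((u - v) • t) * θ (x • (u - v) • m) := by
      intro x
      rw [afspec_sq, phi, map_sum, sum_mul_sum, sum_comm]
      refine sum_congr rfl fun v _ => sum_congr rfl fun u _ => ?_
      rw [afspec_e_mul_conj, ← sub_smul, smul_add, AddChar.map_add_eq_mul, smul_comm]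
    simp only [h1]
    rw [sum_comm]
    refine sum_congr rfl fun v _ => ?_
    rw [sum_comm]
    exact sum_congr rfl fun u _ => (mul_sum _ _ _).symm
  have h5 : ∑ x : R, ‖phi θ U (t + x • m)‖ ^ 2 ≤
      ‖((∑ x : R, ‖phi θ U (t + x • m)‖ ^ 2 : ℝ) : ℂ)‖ := by
    rw [Complex.norm_real]; exact le_abs_self _
  rw [h] at h5
  refine h5.trans ((norm_sum_le _ _).trans ?_)
  rw [mul_sum]
  refine sum_le_sum fun v _ => (norm_sum_le _ _).trans ?_
  have h3 : ∀ u ∈ U, ‖θ ((u - v) • t) * ∑ x : R, θ (x • (u - v) • m)‖ ≤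
      @ite ℝ (¬ IsUnit (u - v)) (D v u) (Fintype.card R : ℝ) 0 := by
    intro u _
    by_cases e : IsUnit (u - v)
    · rw [afspec_orth θ hθ (fun h => hm (e.smul_eq_zero.1 h)), mul_zero, norm_zero,
        if_neg (not_not.2 e)]
    · rw [if_pos e, norm_mul, AddChar.norm_apply, one_mul]
      refine (norm_sum_le _ _).trans ?_
      simp only [AddChar.norm_apply, sum_const, nsmul_eq_mul, mul_one, card_univ, le_refl]
  refine (sum_le_sum h3).trans (le_of_eq ?_)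
  rw [← sum_filter, sum_const, nsmul_eq_mul, mul_comm]

omit [Fintype M] in
lemma afspec_inv {U : Finset R} (hU : Grp U) (t : M) {u : R} (hu : u ∈ U) :
    phi θ U (u • t) = phi θ U t := by
  unfold phi
  obtain ⟨w, hw, e⟩ := hU.inv u hu
  refine sum_nbij' (fun v => u * v) (fun v => w * v) (fun v hv => hU.mul _ hu _ hv)
    (fun v hv => hU.mul _ hw _ hv) (fun v _ => ?_) (fun v _ => ?_) fun v _ => ?_
  · rw [← mul_assoc, mul_comm w, e, one_mul]
  · rw [← mul_assoc, e, one_mul]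
  · rw [smul_smul, mul_comm]

lemma afspec_cs (U : Finset R) (A : Finset M) :
    (∑ t ∈ A, ‖phi θ U t‖) ^ 2 ≤ #U * ∑ p ∈ A ×ˢ A, ‖phi θ U (p.1 - p.2)‖ := by
  choose c hc1 hc2 using fun t => Complex.exists_norm_eq_mul_self (phi θ U t)
  set F : R → ℂ := fun u => ∑ t ∈ A, c t * θ (u • t) with hF
  have h1 : ∑ t ∈ A, ‖phi θ U t‖ ≤ ∑ u ∈ U, ‖F u‖ := by
    have h2 : ((∑ t ∈ A, ‖phi θ U t‖ : ℝ) : ℂ) = ∑ u ∈ U, F u := by
      rw [Complex.ofReal_sum, sum_comm]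
      refine sum_congr rfl fun t _ => ?_
      rw [hc2, phi, mul_sum]
    refine le_trans ?_ (norm_sum_le U F)
    rw [← h2, Complex.norm_real]
    exact le_abs_self _
  have h2 : ∑ u ∈ U, ‖F u‖ ^ 2 ≤ ∑ p ∈ A ×ˢ A, ‖phi θ U (p.1 - p.2)‖ := by
    have h3 : ((∑ u ∈ U, ‖F u‖ ^ 2 : ℝ) : ℂ) =
        ∑ p ∈ A ×ˢ A, c p.1 * (starRingEnd ℂ) (c p.2) * phi θ U (p.1 - p.2) := by
      rw [Complex.ofReal_sum]
      have h4 : ∀ u ∈ U, ((‖F u‖ ^ 2 : ℝ) : ℂ) = ∑ p ∈ A ×ˢ A,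
          c p.1 * (starRingEnd ℂ) (c p.2) * θ (u • (p.1 - p.2)) := by
        intro u _
        rw [afspec_sq, hF, map_sum, sum_mul_sum, sum_product]
        refine sum_congr rfl fun t _ => sum_congr rfl fun s _ => ?_
        rw [map_mul (starRingEnd ℂ), smul_sub, ← afspec_e_mul_conj]; ring
      rw [sum_congr rfl h4, sum_comm]
      refine sum_congr rfl fun p _ => ?_
      rw [phi, mul_sum]
    have h5 : ∑ u ∈ U, ‖F u‖ ^ 2 ≤ ‖((∑ u ∈ U, ‖F u‖ ^ 2 : ℝ) : ℂ)‖ := by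
      rw [Complex.norm_real]; exact le_abs_self _
    rw [h3] at h5
    refine h5.trans ((norm_sum_le _ _).trans (sum_le_sum fun p _ => ?_))
    rw [norm_mul, norm_mul, Complex.norm_conj, hc1, hc1, one_mul, one_mul]
  have h3 : (∑ u ∈ U, ‖F u‖) ^ 2 ≤ #U * ∑ u ∈ U, ‖F u‖ ^ 2 := sq_sum_le_card_mul_sum_sq
  have h4 : 0 ≤ ∑ t ∈ A, ‖phi θ U t‖ := sum_nonneg fun _ _ => norm_nonneg _
  calc _ ≤ (∑ u ∈ U, ‖F u‖) ^ 2 := by gcongr
    _ ≤ _ := h3
    _ ≤ _ := by gcongr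

lemma afspec_mem {U : Finset R} {α : ℝ} {t : M} : t ∈ spec θ U α ↔ α * #U ≤ ‖phi θ U t‖ := by
  simp [spec]

end

lemma afspec_sum {R : Type} (U : Finset R) (P : ℝ) (f : R → ℝ) (h : ∀ v ∈ U, P * f v ≤ #U) :
    P * ∑ v ∈ U, f v ≤ (#U : ℝ) * #U := by
  rw [mul_sum, ← nsmul_eq_mul]
  exact sum_le_card_nsmul U (fun v => P * f v) _ h

theorem spec_facts (h : StmtSel) : StmtSpec := by
  intro R M _ _ _ _ _ _ _ θ U P hU hθ
  have hn : (0 : ℝ) < #U := by exact_mod_cast card_pos.2 ⟨1, hU.grp.one⟩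
  refine ⟨fun α hα t m hm => ?_, fun t u hu => afspec_inv θ hU.grp t hu, fun α hα => ?_⟩
  · set X := univ.filter fun x : R => t + x • m ∈ spec θ U α with hX
    rcases le_total P 0 with hP | hP
    · exact (mul_nonpos_of_nonneg_of_nonpos (Nat.cast_nonneg _)
        (mul_nonpos_of_nonneg_of_nonpos (sq_nonneg _) hP)).trans (Nat.cast_nonneg _)
    have h1 : (#X : ℝ) * (α * #U) ^ 2 ≤ ∑ x : R, ‖phi θ U (t + x • m)‖ ^ 2 := by
      rw [← nsmul_eq_mul]
      refine (card_nsmul_le_sum X (fun x => ‖phi θ U (t + x • m)‖ ^ 2) _ fun x hx => ?_).trans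
        (sum_le_sum_of_subset_of_nonneg (subset_univ _) fun _ _ _ => by positivity)
      have := (afspec_mem θ).1 (mem_filter.1 hx).2
      gcongr
    have h3 := afspec_sum U P _ (h R U P hU).1
    refine le_of_mul_le_mul_right ?_ (mul_pos hn hn)
    refine le_trans ?_ (mul_le_mul_of_nonneg_left h3 (Nat.cast_nonneg (Fintype.card R)))
    rw [mul_left_comm (Fintype.card R : ℝ) P]
    refine le_trans (le_of_eq ?_)
      (mul_le_mul_of_nonneg_left (h1.trans (afspec_parseval θ U hθ t hm _)) hP)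
    ring
  · set A := spec θ U α with hA
    set G := (A ×ˢ A).filter fun p => p.1 - p.2 ∈ spec θ U (α ^ 2 / 2) with hG
    have h1 : (#A : ℝ) * (α * #U) ≤ ∑ t ∈ A, ‖phi θ U t‖ := by
      rw [← nsmul_eq_mul]
      exact card_nsmul_le_sum A (fun t => ‖phi θ U t‖) _ fun t ht => (afspec_mem θ).1 ht
    have h2 : ∑ p ∈ A ×ˢ A, ‖phi θ U (p.1 - p.2)‖ ≤ #G * #U + #A ^ 2 * (α ^ 2 / 2 * #U) := by
      have h3 : ∀ p ∈ A ×ˢ A, ‖phi θ U (p.1 - p.2)‖ ≤
          (if p.1 - p.2 ∈ spec θ U (α ^ 2 / 2) then (#U : ℝ) else 0) + α ^ 2 / 2 * #U := by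
        intro p _
        split_ifs with h
        · have := afspec_norm_le θ U (p.1 - p.2)
          have h4 : 0 ≤ α ^ 2 / 2 * (#U : ℝ) := by positivity
          linarith
        · have := not_le.1 (mt (afspec_mem θ).2 h)
          linarith
      refine (sum_le_sum h3).trans (le_of_eq ?_)
      rw [sum_add_distrib, ← sum_filter, sum_const, sum_const, card_product, nsmul_eq_mul,
        nsmul_eq_mul]
      push_cast; ring
    have h3 : ((#A : ℝ) * (α * #U)) ^ 2 ≤ #U * (#G * #U + #A ^ 2 * (α ^ 2 / 2 * #U)) :=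
      calc _ ≤ (∑ t ∈ A, ‖phi θ U t‖) ^ 2 := by gcongr
        _ ≤ _ := afspec_cs θ U A
        _ ≤ _ := by gcongr
    refine le_of_mul_le_mul_right ?_ (pow_pos hn 2)
    nlinarith

end Pool.Agent.Work.MP_11a08a_al.Af
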