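import Pool.Agent.Work.MP_11a08a_al.Af.Defs

/-!
The step of the rank recursion in the ultraproduct.
-/

set_option autoImplicit false

open Finset Filter

namespace Pool.Agent.Work.MP_11a08a_al.Af

open Pool.Agent.Work.MP_11a08a_al.Cp (Most trk)
open Pool.Agent.Work.MP_11a08a_al.Fr (Faith phi spec Dec Spread half sol op Ind ex Claim
  ex_sum)

theorem afstep_ind {𝒰 : Ultrafilter ℕ} {R M K : ℕ → Type} [∀ n, CommRing (R n)]
    [∀ n, Fintype (R n)] [∀ n, DecidableEq (R n)] [∀ n, AddCommGroup (M n)]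
    [∀ n, Module (R n) (M n)] [∀ n, DecidableEq (M n)] [∀ n, Field (K n)]
    {χ : ∀ n, AddChar (M n) (K n)} {U : ∀ n, Finset (R n)} {L : Type} [Field L]
    {π : (∀ n, K n) →+* L} {k : ℕ} (H : Dat 𝒰 χ U π k) {I : Type} [Fintype I]
    {v : I → ∀ n, M n} (hv : Ind 𝒰 v) (i₀ : Fin k ⊕ Fin k) (l : {i // i ≠ i₀} × I → ℤ) (ε : ℝ)
    (hε : 0 < ε) :
    Most 𝒰 (fun n => sol (U n) k) ε fun w => l ≠ 0 →
      ∀ᶠ n in (𝒰 : Filter ℕ), ∑ p, l p • w n p.1.1 • v p.2 n ≠ 0 := by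
  classical
  by_cases hl : l = 0
  · exact ⟨fun _ => ∅, Eventually.of_forall fun n => by simp; positivity,
      fun _ _ _ h => absurd hl h⟩
  obtain ⟨p, hp⟩ := Function.ne_iff.1 hl
  let c : ∀ n, Fin k ⊕ Fin k → M n := fun n i =>
    if h : i ≠ i₀ then ∑ x, l (⟨i, h⟩, x) • v x n else 0
  refine ⟨fun n => (sol (U n) k).filter fun w => ∑ i, w i • c n i = 0, ?_, fun w hw hb _ => ?_⟩
  · filter_upwards [H.c1 ε hε, hv (fun x => l (p.1, x)) (Function.ne_iff.2 ⟨p.2, hp⟩)] with n h1 h2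
    refine h1 (c n) i₀ (by simp [c]) (Function.ne_iff.2 ⟨p.1.1, ?_⟩)
    simp only [c, dif_pos p.1.2]
    exact h2
  · filter_upwards [hb] with n h1 h2
    refine h1 (mem_filter.2 ⟨hw n, ?_⟩)
    rw [← h2, Fintype.sum_prod_type, Fintype.sum_eq_add_sum_subtype_ne _ i₀]
    simp only [c, ne_eq, not_true_eq_false, dif_neg, not_false_eq_true, smul_zero, zero_add]
    refine sum_congr rfl fun i _ => ?_
    rw [dif_pos i.2, smul_sum]
    exact sum_congr rfl fun x _ => smul_comm _ _ _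

theorem step (hG : StmtGen) (hM : Cp.StmtMost) (hA : Cp.StmtAlg) : StmtStep := by
  intro 𝒰 R M K _ _ _ _ _ _ _ χ U L _ π k H K₀ _ g m c hc h
  classical
  obtain ⟨I, _, v, hv, hg, hm⟩ := h
  obtain ⟨s1, s2, -, s4, s5, -⟩ := hM 𝒰 _ (fun n => sol (U n) k) H.le
  obtain ⟨u1, u2, u3, u4, -, u6⟩ := hM 𝒰 _ U H.le
  obtain ⟨a1, -, a3⟩ := hA K₀ L
  let i₀ : Fin k ⊕ Fin k := Sum.inl ⟨0, H.hk⟩
  have : Countable (MvPolynomial I K₀) := by
    rw [← Cardinal.mk_le_aleph0_iff]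
    refine MvPolynomial.cardinalMk_le_max.trans ?_
    simp only [max_le_iff, Cardinal.mk_le_aleph0_iff, le_refl, and_true]
    exact ⟨inferInstance, inferInstance⟩
  have m1 := s4 _ _ (fun l ε hε => afstep_ind H hv i₀ l ε hε) (1 / 4) (by norm_num)
  have m2 := s4 (MvPolynomial I K₀ × ℕ) _
    (fun p ε hε => hG 𝒰 R M K χ U L π k H K₀ I v hv p.1 p.2 ε hε) (1 / 4) (by norm_num)
  obtain ⟨w, hw, w1, w2⟩ := s5 _ _ H.ne (by norm_num) (s2 _ _ _ _ m1 m2)
  have hwU : ∀ n i, w n i ∈ U n := fun n i =>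
    Fintype.mem_piFinset.1 (mem_filter.1 (hw n)).1 i
  have hcard : Fintype.card ({i // i ≠ i₀} × I) = (2 * k - 1) * Fintype.card I := by
    rw [Fintype.card_prod, Fintype.card_subtype_compl, Fintype.card_sum, Fintype.card_fin,
      Fintype.card_unique, two_mul]
  refine ⟨{i // i ≠ i₀} × I, inferInstance, fun p n => w n p.1.1 • v p.2 n, w1,
    hcard.trans_le (Nat.mul_le_mul_left _ hg), ?_⟩
  have m3 := u4 (MvPolynomial I K₀) (fun Q u => MvPolynomial.aeval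
      (fun x => ex χ π fun n => (half (w n) * u n) • v x n) Q = 0 → Q = 0) (fun Q ε hε => by
    obtain ⟨j, hj⟩ := exists_nat_one_div_lt hε
    exact u1 _ _ _ _ hj.le (fun _ _ h => h) (w2 (Q, j))) c hc
  have m4 := u3 (Fin k ⊕ Fin k) c _ fun i => u6 c _ (fun n x => w n i * x)
    (fun n => ((H.grp n).unit (hwU n i)).mul_right_injective)
    (fun n x hx => (H.grp n).mul _ (hwU n i) _ hx) hm
  refine u1 _ _ _ _ (le_of_eq ?_) (fun u _ hu => ?_) (u2 _ _ _ _ m4 m3)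
  · rw [Fintype.card_sum, Fintype.card_fin]
    push_cast
    ring
  · have h1 := a3 k m I (fun i x => ex χ π fun n => (w n i * u n) • v x n)
      (fun x => ex χ π fun n => (half (w n) * u n) • v x n) H.hk
      (algebraicIndependent_iff.2 hu.2) (fun x => ?_) (fun x => ?_) hu.1
    · rw [hcard]
      refine le_trans (add_le_add_left (a1 _ _ ?_) _) h1
      rintro _ ⟨p, rfl⟩
      refine Set.mem_iUnion.2 ⟨p.1.1, p.2, ?_⟩
      simp only [smul_smul, mul_comm]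
    · rw [← ex_sum]
      congr 1
      funext n
      rw [half, sum_mul, sum_smul]
    · rw [← ex_sum]
      congr 1
      funext n
      rw [(mem_filter.1 (hw n)).2, sum_mul, sum_smul]

end Pool.Agent.Work.MP_11a08a_al.Af
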