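import Pool.Agent.Work.MP_11a08a_al.Af.BGK
import Pool.Agent.Work.MP_11a08a_al.Af.BGK0
import Pool.Agent.Work.MP_11a08a_al.Af.BGK1
import Pool.Agent.Work.MP_11a08a_al.Af.Base
import Pool.Agent.Work.MP_11a08a_al.Af.Cnt1
import Pool.Agent.Work.MP_11a08a_al.Af.Gen
import Pool.Agent.Work.MP_11a08a_al.Af.Grow
import Pool.Agent.Work.MP_11a08a_al.Af.Inv
import Pool.Agent.Work.MP_11a08a_al.Af.NT
import Pool.Agent.Work.MP_11a08a_al.Af.NT0
import Pool.Agent.Work.MP_11a08a_al.Af.NT1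
import Pool.Agent.Work.MP_11a08a_al.Af.NT3
import Pool.Agent.Work.MP_11a08a_al.Af.Quo
import Pool.Agent.Work.MP_11a08a_al.Af.SP
import Pool.Agent.Work.MP_11a08a_al.Af.Sel
import Pool.Agent.Work.MP_11a08a_al.Af.Shift
import Pool.Agent.Work.MP_11a08a_al.Af.Spec
import Pool.Agent.Work.MP_11a08a_al.Af.Step
import Pool.Agent.Work.MP_11a08a_al.Af.Sub
import Pool.Agent.Work.MP_11a08a_al.Cp.Alg
import Pool.Agent.Work.MP_11a08a_al.Cp.BSG
import Pool.Agent.Work.MP_11a08a_al.Cp.Most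
import Pool.Agent.Work.MP_11a08a_al.Fr.Basis
import Pool.Agent.Work.MP_11a08a_al.Fr.Cnt2
import Pool.Agent.Work.MP_11a08a_al.Fr.En
import Pool.Agent.Work.MP_11a08a_al.Fr.Idx
import Pool.Agent.Work.MP_11a08a_al.Fr.Num
import Pool.Agent.Work.MP_11a08a_al.Fr.Pat
import Pool.Agent.Work.MP_11a08a_al.Fr.SP3
import Pool.Agent.Work.MP_11a08a_al.Fr.SR

/-!
Assembly of the theorem on sparse sums of characters for boundedly many pieces.
-/

set_option autoImplicit false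

namespace Pool.Agent.Work.MP_11a08a_al.Af

theorem bgk_all : StmtBGK :=
  bgk (bgk1 (bgk0 sel Cp.bsg (sp Fr.sp3 grow Fr.en) (spec_facts sel) inv_facts))

theorem nt0_all : StmtNT0 :=
  nt0 Fr.cnt2 (cnt1 sel Fr.idx) (base Fr.basis Fr.pat (shift sel) Cp.most Cp.alg)
    (step (gen Fr.sr) Cp.most Cp.alg) Fr.num Cp.most

theorem nt3_all : StmtNT3 := nt3 (quo (nt (nt1 bgk_all nt0_all) (sub sel Fr.idx)))

end Pool.Agent.Work.MP_11a08a_al.Af
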