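import Pool.Agent.Work.MP_11a08a_al.Af.Defs
import Pool.Agent.Work.MP_11a08a_al.Fr.NT1

/-!
The core for a group that is spread out.
-/

set_option autoImplicit false

open Finset Filter

namespace Pool.Agent.Work.MP_11a08a_al.Af

open Pool.Agent.Work.MP_11a08a_al.Fr (Faith phi spec Dec Spread half sol op Ind ex Claim
  nt1_chr nt1_ker nt1_quo nt1_faith nt1_val nt1_mono)

theorem nt1 (hB : StmtBGK) (h0 : StmtNT0) : StmtNT1 := by
  classical
  intro η hη q
  obtain ⟨δ, hδ, N₀, hb⟩ := hB η hη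
  obtain ⟨c, hc, N₁, h1⟩ := h0 (min δ η) (lt_min hδ hη) q
  refine ⟨c, hc, max N₀ N₁, fun R K _ _ _ _ U hN hU hS ψ β hz => ?_⟩
  have hR : (1 : ℝ) ≤ Fintype.card R := by exact_mod_cast Fintype.card_pos
  have hfin : Finite ((Fin q → R) ⧸ nt1_ker (nt1_chr ψ)) :=
    Finite.of_surjective _ (Submodule.Quotient.mk_surjective _)
  have H := h1 R _ K (nt1_quo (nt1_chr ψ)) U ((le_max_right _ _).trans hN)
    (hU.mono (Real.rpow_le_rpow_of_exponent_le hR (min_le_right _ _))) (nt1_faith _)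
    (nt1_mono (Real.rpow_le_rpow_of_exponent_le hR (neg_le_neg (min_le_left _ _)))
      (hb R U ((le_max_left _ _).trans hN) hU hS))
    (fun l => Submodule.Quotient.mk (Pi.single l (1 : R))) β (by simpa only [nt1_val] using hz)
  refine H.trans (Nat.cast_le.2 (card_le_card fun u hu => ?_))
  rw [mem_filter] at hu ⊢
  exact ⟨hu.1, by simpa only [nt1_val] using hu.2⟩

end Pool.Agent.Work.MP_11a08a_al.Af
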