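import Pool.Agent.Work.MP_11a08a_al.Af.Defs

/-!
The rank bound over algebraically closed fields.
-/

set_option autoImplicit false

open Finset

namespace Pool.Agent.Work.MP_11a08a_al.Af

theorem afrep_repr {L V ι : Type} [Field L] [AddCommGroup V] [Module L V] [DecidableEq ι]
    (b : Module.Basis ι L V) {q : ℕ} (f : Fin q → V →ₗ[L] V) (β κ : Fin q → L) (p : Fin q → ι)
    (x y : ι) (hf : ∀ l, f l (b x) = κ l • b (p l)) :
    b.repr ((∑ l, β l • f l) (b x)) y = ∑ l, if p l = y then β l * κ l else 0 := by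
  rw [LinearMap.sum_apply, map_sum, Finsupp.finsetSum_apply]
  refine Finset.sum_congr rfl fun l _ => ?_
  rw [LinearMap.smul_apply, hf, smul_smul, map_smul, b.repr_self, Finsupp.smul_apply,
    Finsupp.single_apply]
  split_ifs <;> simp

theorem afrep_main (h2 : Cp.StmtMono) {L G V R : Type} [Field L] [AddCommGroup V] [Module L V]
    [CommRing R] [DecidableEq R] (σ : G → V →ₗ[L] V) {q d : ℕ} (I : Fin d → Ideal R) (h : Fin q → G) (β : Fin q → L)
    (hM : ∑ l, β l • σ (h l) ≠ 0) (U : Finset R) (b : Module.Basis U L V)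
    (u : G → R) (π : G → U → U) (κ : G → U → L) (hU : Grp U) (hu : ∀ g, u g ∈ U)
    (hπ : ∀ g x, (π g x : R) = u g * x) (hσ : ∀ g x, σ g (b x) = κ g x • b (π g x))
    (hκ : ∀ g x, κ g x ≠ 0)
    (he : ∀ g g', u g = u g' → ∃ (ψ : Fin d → AddChar R L) (ω : L),
      (∀ i, ∀ y ∈ I i, ψ i y = 1) ∧ ∀ x : U, κ g' x = ω * (∏ i, ψ i x) * κ g x) :
    ∃ (ψ : Fin q → Fin d → AddChar R L) (β' : Fin q → L), (∀ l i, ∀ y ∈ I i, ψ l i y = 1) ∧
      (∃ z ∈ U, ∑ l, β' l * ∏ i, ψ l i z ≠ 0) ∧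
      ∀ X : Finset R, X ⊆ U → (∀ z ∈ X, ∑ l, β' l * ∏ i, ψ l i z ≠ 0) →
        #X ≤ (2 * q + 1) * Module.finrank L (LinearMap.range (∑ l, β l • σ (h l))) := by
  have hrepr : ∀ x y, b.repr ((∑ l, β l • σ (h l)) (b x)) y =
      ∑ l, if π (h l) x = y then β l * κ (h l) x else 0 := fun x y =>
    afrep_repr b (fun l => σ (h l)) β (fun l => κ (h l) x) (fun l => π (h l) x) x y
      fun l => hσ (h l) x
  have hsupp : ∀ x y, b.repr ((∑ l, β l • σ (h l)) (b x)) y ≠ 0 → ∃ l, y = π (h l) x := by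
    intro x y hne
    rw [hrepr] at hne
    obtain ⟨l, -, hl⟩ := Finset.exists_ne_zero_of_sum_ne_zero hne
    exact ⟨l, by by_contra hc; exact hl (if_neg fun e => hc e.symm)⟩
  obtain ⟨x0, hx0⟩ : ∃ x, (∑ l, β l • σ (h l)) (b x) ≠ 0 := by
    by_contra hc
    simp only [not_exists, not_not] at hc
    exact hM (b.ext fun x => by rw [hc x]; rfl)
  obtain ⟨y0, hy0⟩ : ∃ y, b.repr ((∑ l, β l • σ (h l)) (b x0)) y ≠ 0 := by
    by_contra hc
    simp only [not_exists, not_not] at hc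
    exact hx0 (b.repr.injective (by ext y; rw [hc y]; simp))
  obtain ⟨l0, rfl⟩ := hsupp x0 y0 hy0
  have hch : ∀ l, ∃ (ψ : Fin d → AddChar R L) (ω : L), (∀ i, ∀ y ∈ I i, ψ i y = 1) ∧
      (u (h l0) = u (h l) → ∀ x : U, κ (h l) x = ω * (∏ i, ψ i x) * κ (h l0) x) := by
    intro l
    by_cases hl : u (h l0) = u (h l)
    · obtain ⟨e, ω, h0, hh⟩ := he _ _ hl
      exact ⟨e, ω, h0, fun _ => hh⟩
    · exact ⟨fun _ => 1, 0, fun _ _ _ => rfl, fun hh => absurd hh hl⟩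
  choose e ω heI heω using hch
  have key : ∀ x : U, b.repr ((∑ l, β l • σ (h l)) (b x)) (π (h l0) x) =
      κ (h l0) x * ∑ l, (if u (h l0) = u (h l) then β l * ω l else 0) * ∏ i, e l i x := by
    intro x
    rw [hrepr, Finset.mul_sum]
    refine Finset.sum_congr rfl fun l _ => ?_
    by_cases hl : u (h l0) = u (h l)
    · have : π (h l) x = π (h l0) x := Subtype.ext (by rw [hπ, hπ, hl])
      rw [if_pos this, if_pos hl, heω l hl x]; ring
    · have : π (h l) x ≠ π (h l0) x := fun hh => by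
        have h3 := congrArg Subtype.val hh
        rw [hπ, hπ] at h3
        exact hl ((hU.unit x.2).mul_right_cancel h3).symm
      rw [if_neg this, if_neg hl]; ring
  refine ⟨e, fun l => if u (h l0) = u (h l) then β l * ω l else 0, heI,
    ⟨x0, x0.2, fun hz => ?_⟩, ?_⟩
  · rw [key, hz, mul_zero] at hy0
    exact hy0 rfl
  · intro X hX hne
    have hcard : #(X.subtype (· ∈ U)) = #X := by
      rw [Finset.card_subtype, Finset.filter_true_of_mem fun z hz => hX hz]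
    rw [← hcard]
    refine h2 L V U b _ q (fun l => π (h l)) l0 _ (fun l x x' hh => ?_) hsupp fun x hx => ?_
    · have h3 := congrArg Subtype.val hh
      rw [hπ, hπ] at h3
      exact Subtype.ext ((hU.unit (hu _)).mul_left_cancel h3)
    · rw [key]
      exact mul_ne_zero (hκ _ _) (hne _ (Finset.mem_subtype.1 hx))

theorem rep (h1 : StmtNT3) (h2 : Cp.StmtMono) (h3 : StmtStruct) : StmtRep := by
  classical
  intro δ hδ q d
  obtain ⟨c0, hc0, hNT⟩ := h1 q d δ hδ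
  have hq : (0 : ℝ) ≤ (2 * q + 1) / c0 := by positivity
  refine ⟨1 + (2 * q + 1) / c0, by positivity, ?_⟩
  intro L G V _ _ _ _ _ _ _ σ A H hA hirr h β hM
  have hN1 : (1 : ℝ) ≤ (Nat.card G : ℝ) := by exact_mod_cast Nat.card_pos
  have hNδ : (1 : ℝ) ≤ (Nat.card G : ℝ) ^ δ := Real.one_le_rpow hN1 hδ.le
  have hS : (1 : ℝ) ≤ Module.finrank L (LinearMap.range (∑ l, β l • σ (h l))) := by
    have : Module.finrank L (LinearMap.range (∑ l, β l • σ (h l))) ≠ 0 := fun h0 =>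
      hM (LinearMap.range_eq_bot.1 (Submodule.finrank_eq_zero.1 h0))
    exact_mod_cast Nat.one_le_iff_ne_zero.2 this
  obtain ⟨S, hSe⟩ : ∃ S : ℝ, S = Module.finrank L (LinearMap.range (∑ l, β l • σ (h l))) :=
    ⟨_, rfl⟩
  obtain ⟨N, hNe⟩ : ∃ N : ℝ, N = (Nat.card G : ℝ) ^ δ := ⟨_, rfl⟩
  rw [← hSe] at hS ⊢
  rw [← hNe] at hNδ ⊢
  have hNS : 1 ≤ N * S := one_le_mul_of_one_le_of_one_le hNδ hS
  have hP : 0 ≤ (2 * q + 1) / c0 * (N * S) := mul_nonneg hq (by linarith)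
  rw [mul_assoc, add_mul, one_mul]
  rcases h3 L G V σ d A H hA hirr with hd |
    ⟨R, _, _, _, U, I, b, u, π, κ, hRG, hU, hI, hu, hπ, hσ, hκ, he⟩
  · rw [hd, Nat.cast_zero]
    linarith
  have hdim : Module.finrank L V = #U := by
    rw [Module.finrank_eq_card_basis b, Fintype.card_coe]
  rw [hdim]
  have g0 : (Fintype.card R : ℝ) ^ δ ≤ N := by
    rw [hNe]
    exact Real.rpow_le_rpow (Nat.cast_nonneg _) (by exact_mod_cast hRG) hδ.le
  obtain ⟨ψ, β', hψ, hz, hX⟩ :=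
    afrep_main h2 (fun g => σ g) I h β hM U b u π κ hU hu hπ hσ hκ he
  have g1 := hNT R L U I hU hI ψ β' hψ hz
  have g2 := hX (U.filter fun z => ∑ l, β' l * ∏ i, ψ l i z ≠ 0) (Finset.filter_subset _ _)
    fun z hz' => (Finset.mem_filter.1 hz').2
  have g3 : c0 * #U ≤ N * ((2 * q + 1) * S) := by
    refine g1.trans (mul_le_mul g0 ?_ (Nat.cast_nonneg _) (by linarith))
    rw [hSe]
    exact_mod_cast g2
  have g4 : (#U : ℝ) ≤ (2 * q + 1) / c0 * (N * S) := by
    rw [div_mul_eq_mul_div, le_div_iff₀ hc0]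
    linarith
  linarith

end Pool.Agent.Work.MP_11a08a_al.Af
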